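import Mathlib

set_option autoImplicit false

namespace Pool.Agent.H35.WGA

open MeasureTheory
open scoped InnerProductSpace

/-- Temlyakov's class `V` of nonnegative sequences. The sequence is indexed from `0`, so that `t k`
stands for the parameter of step `k + 1`: `t` is in `V` if there are integers
`0 = q 0 < q 1 < q 2 < ...` such that `∑_{s ≥ 1} 2 ^ s / (q s - q (s - 1)) < ∞` and
`∑_{s ≥ 1} 2 ^ (-s) * ∑_{k ≤ q s} (parameter of step k) ^ 2 < ∞`. -/
def ClassV (t : ℕ → ℝ) : Prop :=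
  ∃ q : ℕ → ℕ, q 0 = 0 ∧ StrictMono q ∧
    Summable (fun s : ℕ => (2 : ℝ) ^ (s + 1) / ((q (s + 1) : ℝ) - (q s : ℝ))) ∧
    Summable (fun s : ℕ => (∑ k ∈ Finset.range (q (s + 1)), t k ^ 2) / (2 : ℝ) ^ (s + 1))

/-- `(r, φ)` is a realization of the Weak Greedy Algorithm for the element `f` with respect to
the dictionary `D`, with weakness sequence `t` (the parameter of step `m + 1` is `t m`):
`r m` is the residual after `m` steps and `φ m` the dictionary element chosen in step `m + 1`. -/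
structure IsWGA {H : Type} [NormedAddCommGroup H] [InnerProductSpace ℝ H]
    (D : Set H) (t : ℕ → ℝ) (f : H) (r φ : ℕ → H) : Prop where
  init : r 0 = f
  mem : ∀ m, φ m ∈ D
  greedy : ∀ m, t m * (⨆ g : D, |⟪r m, (g : H)⟫_ℝ|) ≤ |⟪r m, φ m⟫_ℝ|
  step : ∀ m, r (m + 1) = r m - ⟪r m, φ m⟫_ℝ • φ m

/-- Lebesgue measure on `[0, 1]`. -/
noncomputable abbrev muI : Measure ℝ := volume.restrict (Set.Icc (0 : ℝ) 1)

/-- The real Hilbert space `L_2([0,1])`. -/
abbrev L2I : Type := Lp ℝ 2 muI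

/-- The real Hilbert space `L_2([0,1]^2)`. -/
abbrev L2Sq : Type := Lp ℝ 2 (muI.prod muI)

/-- The bilinear dictionary `Π_2`: all `g(x₁,x₂) = u(x₁) v(x₂)` with `u, v ∈ L_2([0,1])` and
`‖g‖ = 1`. -/
def bilinearDictionary : Set L2Sq :=
  {g | ‖g‖ = 1 ∧ ∃ u v : L2I, (g : ℝ × ℝ → ℝ) =ᵐ[muI.prod muI] fun x => u x.1 * v x.2}

/-- The Weak Greedy Algorithm with weakness sequence `t` converges with respect to `D`: for every
`f` and every realization, the norms of the residuals tend to `0`. -/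
def Converges {H : Type} [NormedAddCommGroup H] [InnerProductSpace ℝ H]
    (D : Set H) (t : ℕ → ℝ) : Prop :=
  ∀ (f : H) (r φ : ℕ → H), IsWGA D t f r φ →
    Filter.Tendsto (fun m => ‖r m‖) Filter.atTop (nhds 0)

end Pool.Agent.H35.WGA
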