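import Mathlib
import Pool.Agent.H35.WGADefs

set_option autoImplicit false

namespace Pool.Agent.H35.WGA

open Finset Filter Topology

theorem summable_of_half {B β : ℕ → ℝ} (hB : ∀ s, 0 ≤ B s) (hβ : ∀ s, 0 ≤ β s)
    (hsum : Summable β) (h : ∀ s, B (s + 1) ≤ B s / 2 + β s) : Summable B := by
  refine summable_of_sum_range_le (c := 2 * (B 0 + ∑' s, β s)) hB fun n => ?_
  have hmono : ∑ s ∈ range n, B s ≤ ∑ s ∈ range (n + 1), B s := by
    rw [sum_range_succ]; linarith [hB n]
  have h1 : ∑ s ∈ range (n + 1), B s ≤ B 0 + (∑ s ∈ range n, B s) / 2 + ∑ s ∈ range n, β s := by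
    rw [sum_range_succ']
    have : ∑ s ∈ range n, B (s + 1) ≤ ∑ s ∈ range n, (B s / 2 + β s) :=
      sum_le_sum fun s _ => h s
    rw [sum_add_distrib, ← sum_div] at this
    linarith
  have h2 : ∑ s ∈ range n, β s ≤ ∑' s, β s := hsum.sum_le_tsum _ (fun s _ => hβ s)
  linarith

theorem summable_telescope {G : ℕ → ℝ} {p : ℕ → ℕ} (hG : Monotone G) (hp : Monotone p)
    {M : ℝ} (hM : ∀ n, G n ≤ M) (h0 : ∀ n, 0 ≤ G n) :
    Summable (fun s => G (p (s + 1)) - G (p s)) := by
  refine summable_of_sum_range_le (c := M) (fun s => sub_nonneg.2 (hG (hp (Nat.le_succ s))))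
    fun n => ?_
  rw [sum_range_sub (fun s => G (p s))]
  linarith [hM (p n), h0 (p 0)]

theorem classV_of_summable_sq {t : ℕ → ℝ} (h : Summable (fun k => t k ^ 2)) : ClassV t := by
  refine ⟨fun s => 4 ^ s - 1, by simp, ?_, ?_, ?_⟩
  · refine strictMono_nat_of_lt_succ fun s => ?_
    have h1 : 1 ≤ 4 ^ s := Nat.one_le_pow _ _ (by norm_num)
    have h2 : 4 ^ (s + 1) = 4 * 4 ^ s := by ring
    omega
  · have h1 : ∀ s : ℕ, (2 : ℝ) ^ (s + 1) / (((4 ^ (s + 1) - 1 : ℕ) : ℝ) - ((4 ^ s - 1 : ℕ) : ℝ)) =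
        (2 / 3) * (1 / 2) ^ s := by
      intro s
      have e1 : ((4 ^ (s + 1) - 1 : ℕ) : ℝ) = 4 ^ (s + 1) - 1 := by
        rw [Nat.cast_sub (Nat.one_le_pow _ _ (by norm_num))]; push_cast; ring
      have e2 : ((4 ^ s - 1 : ℕ) : ℝ) = 4 ^ s - 1 := by
        rw [Nat.cast_sub (Nat.one_le_pow _ _ (by norm_num))]; push_cast; ring
      rw [e1, e2]
      have e3 : (4 : ℝ) ^ (s + 1) - 1 - (4 ^ s - 1) = 3 * (2 ^ s * 2 ^ s) := by
        rw [← mul_pow]; norm_num; ring
      rw [e3, div_pow, one_pow, pow_succ]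
      field_simp
    simp only [h1]
    exact (summable_geometric_of_lt_one (by norm_num) (by norm_num)).mul_left _
  · refine Summable.of_nonneg_of_le (fun s => ?_) (fun s => ?_)
      (((summable_geometric_of_lt_one (r := (1 / 2 : ℝ)) (by norm_num) (by norm_num)).mul_left
        ((∑' k, t k ^ 2) / 2)))
    · exact div_nonneg (sum_nonneg fun k _ => sq_nonneg _) (by positivity)
    · have h1 : ∑ k ∈ range (4 ^ (s + 1) - 1), t k ^ 2 ≤ ∑' k, t k ^ 2 :=
        h.sum_le_tsum _ (fun k _ => sq_nonneg _)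
      have h2 : (∑' k, t k ^ 2) / 2 * (1 / 2) ^ s = (∑' k, t k ^ 2) / 2 ^ (s + 1) := by
        rw [div_pow, one_pow, pow_succ]; field_simp
      rw [h2]
      exact div_le_div_of_nonneg_right h1 (by positivity)

/-- the `ℓ²` description implies membership in `V` -/
theorem classV_of_l2 {t a : ℕ → ℝ} (ht0 : ∀ k, 0 ≤ t k) (ha0 : ∀ k, 0 ≤ a k)
    (ha : Summable (fun k => a k ^ 2)) {c : ℝ} (hc : 0 < c) {m0 : ℕ}
    (h : ∀ m, m0 ≤ m → c * t m ≤ a m * ∑ j ∈ range (m + 1), a j) : ClassV t := by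
  by_cases hbdd : ∃ M : ℝ, ∀ n, ∑ j ∈ range (n + 1), a j ≤ M
  · obtain ⟨M, hM⟩ := hbdd
    apply classV_of_summable_sq
    have hM0 : 0 ≤ M := le_trans (sum_nonneg fun j _ => ha0 j) (hM 0)
    rw [← summable_nat_add_iff m0]
    refine Summable.of_nonneg_of_le (fun k => sq_nonneg _) (fun k => ?_)
      (((summable_nat_add_iff m0).2 ha).mul_left ((M / c) ^ 2))
    have h1 := h (k + m0) (Nat.le_add_left _ _)
    have h2 : a (k + m0) * ∑ j ∈ range (k + m0 + 1), a j ≤ a (k + m0) * M :=
      mul_le_mul_of_nonneg_left (hM _) (ha0 _)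
    have h3 : t (k + m0) ≤ M / c * a (k + m0) := by
      rw [div_mul_eq_mul_div, le_div_iff₀ hc]
      linarith
    calc t (k + m0) ^ 2 ≤ (M / c * a (k + m0)) ^ 2 := pow_le_pow_left₀ (ht0 _) h3 2
      _ = _ := by ring
  · push Not at hbdd
    set S : ℕ → ℝ := fun n => ∑ j ∈ range (n + 1), a j with hS
    have hSmono : Monotone S := by
      intro m n hmn
      exact sum_le_sum_of_subset_of_nonneg (range_mono (by omega)) (fun j _ _ => ha0 j)
    set l : ℝ := √2 with hl
    have hl1 : (1 + 3 / 8 : ℝ) ≤ l := by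
      rw [hl]; apply Real.le_sqrt_of_sq_le; norm_num
    have hl2 : l ^ 2 = 2 := by rw [hl]; exact Real.sq_sqrt (by norm_num)
    have hl0 : 0 < l := by linarith
    have hex : ∀ s : ℕ, ∃ n, l ^ s < S n := fun s => hbdd (l ^ s)
    classical
    set p : ℕ → ℕ := fun s => Nat.find (hex s) with hp
    have hp1 : ∀ s, l ^ s < S (p s) := fun s => Nat.find_spec (hex s)
    have hp2 : ∀ s n, n < p s → S n ≤ l ^ s := fun s n hn => by
      have := Nat.find_min (hex s) hn
      exact not_lt.1 this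
    have hpmono : Monotone p := by
      refine monotone_nat_of_le_succ fun s => ?_
      by_contra hlt
      push Not at hlt
      have h1 := hp2 s _ hlt
      have h2 := hp1 (s + 1)
      have h3 : l ^ s ≤ l ^ (s + 1) := pow_le_pow_right₀ (by linarith) (Nat.le_succ s)
      linarith
    -- bound for `a`
    obtain ⟨A, hA⟩ : ∃ A : ℝ, ∀ n, a n ≤ A := by
      refine ⟨1 + ∑' k, a k ^ 2, fun n => ?_⟩
      have h1 : a n ^ 2 ≤ ∑' k, a k ^ 2 := ha.le_tsum n (fun j _ => sq_nonneg _)
      nlinarith [sq_nonneg (a n - 1)]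
    have hA0 : 0 ≤ A := le_trans (ha0 0) (hA 0)
    have hp3 : ∀ s, S (p s) ≤ l ^ s + A := by
      intro s
      rcases Nat.eq_zero_or_pos (p s) with h0 | h0
      · rw [h0, hS]
        simp only [zero_add, sum_range_one]
        have : 0 < l ^ s := by positivity
        linarith [hA 0]
      · obtain ⟨n, hn⟩ : ∃ n, p s = n + 1 := ⟨p s - 1, by omega⟩
        have h1 := hp2 s n (by omega)
        rw [hn]
        have : S (n + 1) = S n + a (n + 1) := by
          simp only [hS]; rw [sum_range_succ _ (n + 1)]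
        rw [this]
        linarith [hA (n + 1)]
    -- large s
    obtain ⟨s0, hs0⟩ : ∃ s0 : ℕ, ∀ s, s0 ≤ s → 8 * A ≤ l ^ s := by
      have : Tendsto (fun s : ℕ => l ^ s) atTop atTop :=
        tendsto_pow_atTop_atTop_of_one_lt (by linarith)
      obtain ⟨s0, hs0⟩ := eventually_atTop.1 (this.eventually_ge_atTop (8 * A))
      exact ⟨s0, hs0⟩
    have hgap : ∀ s, s0 ≤ s → l ^ s / 4 ≤ S (p (s + 1)) - S (p s) := by
      intro s hs
      have h1 := hp1 (s + 1)
      have h2 := hp3 s
      have h3 := hs0 s hs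
      have h4 : l ^ (s + 1) = l * l ^ s := by ring
      have h5 : 0 < l ^ s := by positivity
      nlinarith
    have hplt : ∀ s, s0 ≤ s → p s < p (s + 1) := by
      intro s hs
      by_contra hle
      push Not at hle
      have h1 := hgap s hs
      have h2 := hSmono hle
      have h5 : 0 < l ^ s := by positivity
      linarith
    set G : ℕ → ℝ := fun n => ∑ j ∈ range n, a j ^ 2 with hG
    have hGmono : Monotone G := by
      intro m n hmn
      exact sum_le_sum_of_subset_of_nonneg (range_mono hmn) (fun j _ _ => sq_nonneg _)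
    have hGM : ∀ n, G n ≤ ∑' k, a k ^ 2 := fun n => ha.sum_le_tsum _ (fun k _ => sq_nonneg _)
    have hG0 : ∀ n, 0 ≤ G n := fun n => sum_nonneg fun k _ => sq_nonneg _
    -- Cauchy-Schwarz on blocks
    have hCS : ∀ s, s0 ≤ s → (2 : ℝ) ^ s / ((p (s + 1) : ℝ) - p s) ≤
        16 * (G (p (s + 1) + 1) - G (p s + 1)) := by
      intro s hs
      have hlt := hplt s hs
      have e1 : S (p (s + 1)) - S (p s) = ∑ j ∈ Ico (p s + 1) (p (s + 1) + 1), a j := by
        simp only [hS]
        rw [sum_Ico_eq_sub _ (by omega)]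
      have e2 : G (p (s + 1) + 1) - G (p s + 1) = ∑ j ∈ Ico (p s + 1) (p (s + 1) + 1), a j ^ 2 := by
        simp only [hG]
        rw [sum_Ico_eq_sub _ (by omega)]
      have h1 := hgap s hs
      rw [e1] at h1
      have h2 : (∑ j ∈ Ico (p s + 1) (p (s + 1) + 1), a j) ^ 2 ≤
          ((p (s + 1) : ℝ) - p s) * ∑ j ∈ Ico (p s + 1) (p (s + 1) + 1), a j ^ 2 := by
        have h3 := sq_sum_le_card_mul_sum_sq (s := Ico (p s + 1) (p (s + 1) + 1)) (f := a)
        rw [Nat.card_Ico] at h3
        have h4 : ((p (s + 1) + 1 - (p s + 1) : ℕ) : ℝ) = (p (s + 1) : ℝ) - p s := by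
          rw [Nat.cast_sub (by omega)]; push_cast; ring
        rw [h4] at h3
        exact h3
      have h5 : (l ^ s / 4) ^ 2 ≤ (∑ j ∈ Ico (p s + 1) (p (s + 1) + 1), a j) ^ 2 :=
        pow_le_pow_left₀ (by positivity) h1 2
      have h6 : (l ^ s / 4) ^ 2 = 2 ^ s / 16 := by
        rw [div_pow, ← pow_mul, mul_comm s 2, pow_mul, hl2]; norm_num
      have h7 : (0 : ℝ) < (p (s + 1) : ℝ) - p s := by
        have : (p s : ℝ) < p (s + 1) := by exact_mod_cast hlt
        linarith
      rw [div_le_iff₀ h7, e2]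
      nlinarith
    -- choose s1
    have hpge : ∀ j, j ≤ p (s0 + j) := by
      intro j
      induction j with
      | zero => omega
      | succ j ih =>
        have := hplt (s0 + j) (by omega)
        have e : s0 + (j + 1) = s0 + j + 1 := by ring
        rw [e]; omega
    set s1 := s0 + m0 with hs1
    have hm0 : ∀ s, s1 ≤ s → m0 ≤ p s := fun s hs => le_trans (hpge m0) (hpmono hs)
    -- second series
    set B : ℕ → ℝ := fun s => (∑ k ∈ range (p (s1 + s)), t k ^ 2) / 2 ^ (s1 + s) with hB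
    have hBsum : Summable B := by
      refine summable_of_half (β := fun s => (1 / c ^ 2) * (G (p (s1 + (s + 1))) - G (p (s1 + s))))
        (fun s => div_nonneg (sum_nonneg fun k _ => sq_nonneg _) (by positivity)) ?_ ?_ ?_
      · intro s
        have := hGmono (hpmono (show s1 + s ≤ s1 + (s + 1) by omega))
        have h1 : 0 ≤ G (p (s1 + (s + 1))) - G (p (s1 + s)) := by linarith
        positivity
      · exact (summable_telescope (G := G) (p := fun s => p (s1 + s)) hGmono
          (fun i j hij => hpmono (by omega)) hGM hG0).mul_left _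
      · intro s
        have hle : p (s1 + s) ≤ p (s1 + (s + 1)) := hpmono (by omega)
        have e1 : ∑ k ∈ range (p (s1 + (s + 1))), t k ^ 2 =
            ∑ k ∈ range (p (s1 + s)), t k ^ 2 +
              ∑ k ∈ Ico (p (s1 + s)) (p (s1 + (s + 1))), t k ^ 2 := by
          rw [range_eq_Ico, range_eq_Ico, sum_Ico_consecutive _ (Nat.zero_le _) hle]
        have e2 : ∑ k ∈ Ico (p (s1 + s)) (p (s1 + (s + 1))), t k ^ 2 ≤
            (1 / c ^ 2) * 2 ^ (s1 + (s + 1)) * (G (p (s1 + (s + 1))) - G (p (s1 + s))) := by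
          have e3 : G (p (s1 + (s + 1))) - G (p (s1 + s)) =
              ∑ k ∈ Ico (p (s1 + s)) (p (s1 + (s + 1))), a k ^ 2 := by
            simp only [hG]
            rw [sum_Ico_eq_sub _ hle]
          rw [e3, mul_sum]
          refine sum_le_sum fun k hk => ?_
          rw [mem_Ico] at hk
          have hkm : m0 ≤ k := le_trans (hm0 _ (by omega)) hk.1
          have h1 := h k hkm
          have h2 : S k ≤ l ^ (s1 + (s + 1)) := hp2 _ _ hk.2
          have h3 : c * t k ≤ a k * l ^ (s1 + (s + 1)) :=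
            le_trans h1 (mul_le_mul_of_nonneg_left h2 (ha0 k))
          have h4 : (c * t k) ^ 2 ≤ (a k * l ^ (s1 + (s + 1))) ^ 2 :=
            pow_le_pow_left₀ (mul_nonneg hc.le (ht0 k)) h3 2
          have h5 : (a k * l ^ (s1 + (s + 1))) ^ 2 = a k ^ 2 * 2 ^ (s1 + (s + 1)) := by
            rw [mul_pow, ← pow_mul, mul_comm (s1 + (s + 1)) 2, pow_mul, hl2]
          rw [h5, mul_pow] at h4
          have h6 : 0 < c ^ 2 := by positivity
          rw [show 1 / c ^ 2 * 2 ^ (s1 + (s + 1)) * a k ^ 2 =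
            (a k ^ 2 * 2 ^ (s1 + (s + 1))) / c ^ 2 by field_simp, le_div_iff₀ h6]
          linarith
        simp only [hB]
        rw [e1, add_div]
        have e4 : (∑ k ∈ range (p (s1 + s)), t k ^ 2) / 2 ^ (s1 + (s + 1)) =
            (∑ k ∈ range (p (s1 + s)), t k ^ 2) / 2 ^ (s1 + s) / 2 := by
          rw [show s1 + (s + 1) = s1 + s + 1 by ring, pow_succ]; field_simp
        rw [e4]
        have h2 : (0 : ℝ) < 2 ^ (s1 + (s + 1)) := by positivity
        have e5 : (∑ k ∈ Ico (p (s1 + s)) (p (s1 + (s + 1))), t k ^ 2) / 2 ^ (s1 + (s + 1)) ≤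
            1 / c ^ 2 * (G (p (s1 + (s + 1))) - G (p (s1 + s))) := by
          rw [div_le_iff₀ h2]
          calc _ ≤ _ := e2
            _ = _ := by ring
        linarith
    refine ⟨fun s => if s = 0 then 0 else p (s1 + s), by simp, ?_, ?_, ?_⟩
    · refine strictMono_nat_of_lt_succ fun s => ?_
      rcases Nat.eq_zero_or_pos s with h0 | h0
      · subst h0
        have := hplt s1 (by omega)
        simp only [if_true, zero_add, one_ne_zero, if_false]
        omega
      · rw [if_neg (by omega), if_neg (by omega)]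
        exact hplt (s1 + s) (by omega)
    · rw [← summable_nat_add_iff 1]
      have hsum2 : Summable (fun s => G (p (s1 + 1 + (s + 1)) + 1) - G (p (s1 + 1 + s) + 1)) :=
        summable_telescope (G := G) (p := fun s => p (s1 + 1 + s) + 1) hGmono
          (fun i j hij => by
            have : p (s1 + 1 + i) ≤ p (s1 + 1 + j) := hpmono (by omega)
            simpa using this) hGM hG0
      refine Summable.of_nonneg_of_le (fun s => ?_) (fun s => ?_) (hsum2.mul_left 64)
      · beta_reduce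
        rw [if_neg (by omega), if_neg (by omega)]
        have := hplt (s1 + (s + 1)) (by omega)
        have h7 : (0 : ℝ) < (p (s1 + (s + 1) + 1) : ℝ) - p (s1 + (s + 1)) := by
          have : (p (s1 + (s + 1)) : ℝ) < p (s1 + (s + 1) + 1) := by exact_mod_cast this
          linarith
        rw [show s1 + (s + 1 + 1) = s1 + (s + 1) + 1 by ring]
        positivity
      · beta_reduce
        rw [if_neg (by omega), if_neg (by omega)]
        have h1 := hCS (s1 + (s + 1)) (by omega)
        have h2 := hplt (s1 + (s + 1)) (by omega)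
        have h7 : (0 : ℝ) < (p (s1 + (s + 1) + 1) : ℝ) - p (s1 + (s + 1)) := by
          have : (p (s1 + (s + 1)) : ℝ) < p (s1 + (s + 1) + 1) := by exact_mod_cast h2
          linarith
        rw [show s1 + (s + 1 + 1) = s1 + (s + 1) + 1 by ring]
        rw [show s1 + 1 + (s + 1) = s1 + (s + 1) + 1 by ring,
          show s1 + 1 + s = s1 + (s + 1) by ring]
        have h8 : (2 : ℝ) ^ (s + 1 + 1) ≤ 4 * 2 ^ (s1 + (s + 1)) := by
          have h9 : (1 : ℝ) ≤ 2 ^ s1 := one_le_pow₀ (by norm_num)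
          rw [pow_add 2 s1, pow_succ 2 (s + 1)]
          have h10 : (0 : ℝ) < 2 ^ (s + 1) := by positivity
          nlinarith
        calc (2 : ℝ) ^ (s + 1 + 1) / ((p (s1 + (s + 1) + 1) : ℝ) - p (s1 + (s + 1)))
            ≤ (4 * 2 ^ (s1 + (s + 1))) / ((p (s1 + (s + 1) + 1) : ℝ) - p (s1 + (s + 1))) :=
              div_le_div_of_nonneg_right h8 h7.le
          _ = 4 * (2 ^ (s1 + (s + 1)) / ((p (s1 + (s + 1) + 1) : ℝ) - p (s1 + (s + 1)))) := by
              ring
          _ ≤ 4 * (16 * (G (p (s1 + (s + 1) + 1) + 1) - G (p (s1 + (s + 1)) + 1))) := by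
              gcongr
          _ = _ := by ring
    · refine Summable.of_nonneg_of_le (fun s => ?_) (fun s => ?_)
        (((summable_nat_add_iff 1).2 hBsum).mul_left ((2 : ℝ) ^ s1))
      · exact div_nonneg (sum_nonneg fun k _ => sq_nonneg _) (by positivity)
      · beta_reduce
        rw [if_neg (by omega)]
        simp only [hB]
        rw [pow_add 2 s1]
        apply le_of_eq
        field_simp

end Pool.Agent.H35.WGA
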