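import Mathlib

set_option autoImplicit false
set_option linter.unusedSectionVars false

namespace Pool.Agent.H35.Dec

open Finset

/-- The smoothness inequality used throughout (fourth-moment form). -/
def Star (X : Type) [NormedAddCommGroup X] : Prop :=
  ∀ x y : X, ‖x + y‖ ^ 4 + ‖x - y‖ ^ 4 ≤ 2 * (‖x‖ ^ 2 + 3 * ‖y‖ ^ 2) ^ 2

theorem star_real : Star ℝ := by
  intro x y
  have h1 : ‖x + y‖ ^ 4 = (x + y) ^ 4 := by
    rw [Real.norm_eq_abs]; exact Even.pow_abs (by decide) _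
  have h2 : ‖x - y‖ ^ 4 = (x - y) ^ 4 := by
    rw [Real.norm_eq_abs]; exact Even.pow_abs (by decide) _
  have h3 : ‖x‖ ^ 2 = x ^ 2 := by rw [Real.norm_eq_abs, sq_abs]
  have h4 : ‖y‖ ^ 2 = y ^ 2 := by rw [Real.norm_eq_abs, sq_abs]
  rw [h1, h2, h3, h4]
  nlinarith [sq_nonneg (y ^ 2)]

/-- `Star` implies 2-smoothness with `D ^ 2 = 3`. -/
theorem Star.two_smooth {X : Type} [NormedAddCommGroup X] (h : Star X) (x y : X) :
    ‖x + y‖ ^ 2 + ‖x - y‖ ^ 2 ≤ 2 * (‖x‖ ^ 2 + 3 * ‖y‖ ^ 2) := by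
  have h1 := h x y
  have h2 : (‖x + y‖ ^ 2 + ‖x - y‖ ^ 2) ^ 2 ≤ (2 * (‖x‖ ^ 2 + 3 * ‖y‖ ^ 2)) ^ 2 := by
    nlinarith [sq_nonneg (‖x + y‖ ^ 2 - ‖x - y‖ ^ 2)]
  exact (abs_le_of_sq_le_sq' h2 (by positivity)).2

theorem inner_aux {a₁ a₂ b₁ b₂ c₁ c₂ : ℝ} (hc₁ : 0 ≤ c₁) (hc₂ : 0 ≤ c₂)
    (h₁ : a₁ ^ 2 + b₁ ^ 2 ≤ 2 * c₁ ^ 2) (h₂ : a₂ ^ 2 + b₂ ^ 2 ≤ 2 * c₂ ^ 2) :
    (a₁ + a₂) ^ 2 + (b₁ + b₂) ^ 2 ≤ 2 * (c₁ + c₂) ^ 2 := by
  have h3 : (a₁ * a₂ + b₁ * b₂) ^ 2 ≤ (2 * (c₁ * c₂)) ^ 2 := by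
    have h4 : (a₁ * a₂ + b₁ * b₂) ^ 2 ≤ (a₁ ^ 2 + b₁ ^ 2) * (a₂ ^ 2 + b₂ ^ 2) := by
      nlinarith [sq_nonneg (a₁ * b₂ - a₂ * b₁)]
    have h5 : (a₁ ^ 2 + b₁ ^ 2) * (a₂ ^ 2 + b₂ ^ 2) ≤ (2 * c₁ ^ 2) * (2 * c₂ ^ 2) :=
      mul_le_mul h₁ h₂ (by positivity) (by positivity)
    nlinarith
  have h6 : a₁ * a₂ + b₁ * b₂ ≤ 2 * (c₁ * c₂) :=
    (abs_le_of_sq_le_sq' h3 (by positivity)).2
  nlinarith

instance fact_one_le_four : Fact ((1 : ENNReal) ≤ 4) := ⟨by norm_num⟩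

section prod

variable {α β : Type} [NormedAddCommGroup α] [NormedAddCommGroup β]

theorem norm4_pow (x : WithLp 4 (α × β)) : ‖x‖ ^ 4 = ‖x.fst‖ ^ 4 + ‖x.snd‖ ^ 4 := by
  rw [WithLp.prod_norm_eq_of_nat 4 (by norm_num) x]
  rw [← Real.rpow_natCast, ← Real.rpow_mul (by positivity)]
  norm_num

theorem star_two (hα : Star α) (hβ : Star β) : Star (WithLp 2 (α × β)) := by
  intro x y
  have e : ∀ z : WithLp 2 (α × β), ‖z‖ ^ 4 = (‖z.fst‖ ^ 2 + ‖z.snd‖ ^ 2) ^ 2 := by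
    intro z
    rw [← WithLp.prod_norm_sq_eq_of_L2]; ring
  rw [e, e, WithLp.prod_norm_sq_eq_of_L2 x, WithLp.prod_norm_sq_eq_of_L2 y]
  simp only [WithLp.add_fst, WithLp.add_snd, WithLp.sub_fst, WithLp.sub_snd]
  have h1 := hα x.fst y.fst
  have h2 := hβ x.snd y.snd
  have := inner_aux (a₁ := ‖x.fst + y.fst‖ ^ 2) (a₂ := ‖x.snd + y.snd‖ ^ 2)
    (b₁ := ‖x.fst - y.fst‖ ^ 2) (b₂ := ‖x.snd - y.snd‖ ^ 2)
    (c₁ := ‖x.fst‖ ^ 2 + 3 * ‖y.fst‖ ^ 2) (c₂ := ‖x.snd‖ ^ 2 + 3 * ‖y.snd‖ ^ 2)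
    (by positivity) (by positivity) (by nlinarith) (by nlinarith)
  nlinarith

theorem star_four (hα : Star α) (hβ : Star β) : Star (WithLp 4 (α × β)) := by
  intro x y
  have hx := norm4_pow x
  have hy := norm4_pow y
  rw [norm4_pow (x + y), norm4_pow (x - y)]
  simp only [WithLp.add_fst, WithLp.add_snd, WithLp.sub_fst, WithLp.sub_snd]
  have h1 := hα x.fst y.fst
  have h2 := hβ x.snd y.snd
  -- cross term
  have h3 : ‖x.fst‖ ^ 2 * ‖y.fst‖ ^ 2 + ‖x.snd‖ ^ 2 * ‖y.snd‖ ^ 2 ≤ ‖x‖ ^ 2 * ‖y‖ ^ 2 := by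
    have h4 : (‖x.fst‖ ^ 2 * ‖y.fst‖ ^ 2 + ‖x.snd‖ ^ 2 * ‖y.snd‖ ^ 2) ^ 2
        ≤ (‖x‖ ^ 2 * ‖y‖ ^ 2) ^ 2 := by
      have : (‖x‖ ^ 2 * ‖y‖ ^ 2) ^ 2 = ‖x‖ ^ 4 * ‖y‖ ^ 4 := by ring
      rw [this, hx, hy]
      nlinarith [sq_nonneg (‖x.fst‖ ^ 2 * ‖y.snd‖ ^ 2 - ‖x.snd‖ ^ 2 * ‖y.fst‖ ^ 2)]
    exact (abs_le_of_sq_le_sq' h4 (by positivity)).2
  nlinarith

end prod

/-- sign of a boolean -/
def sg (b : Bool) : ℝ := if b then 1 else -1

theorem sg_sq (b : Bool) : sg b ^ 2 = 1 := by cases b <;> simp [sg]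

/-- bundled real Banach space satisfying `Star` -/
structure Sp where
  X : Type
  [nacg : NormedAddCommGroup X]
  [ns : NormedSpace ℝ X]
  [cs : CompleteSpace X]
  star : Star X

attribute [instance] Sp.nacg Sp.ns Sp.cs

/-- a predictable sequence in `X` with bounded fourth-moment Rademacher averages and value `κ` -/
structure Good (κ : ℝ) (X : Type) [NormedAddCommGroup X] [NormedSpace ℝ X] (N : ℕ) where
  f : Fin N → (Fin N → Bool) → X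
  pred : ∀ j ε ε', (∀ i < j, ε i = ε' i) → f j ε = f j ε'
  rad : ∀ ε : Fin N → Bool, ∑ δ : Fin N → Bool, ‖∑ j, sg (δ j) • f j ε‖ ^ 4 ≤ 2 ^ N
  val : κ * 2 ^ N ≤ ∑ ε : Fin N → Bool, ‖∑ j, sg (ε j) • f j ε‖ ^ 2

theorem sum_cons (m : ℕ) (F : (Fin (m + 1) → Bool) → ℝ) :
    ∑ u : Fin (m + 1) → Bool, F u =
      ∑ u : Fin m → Bool, (F (Fin.cons true u) + F (Fin.cons false u)) := by
  rw [← (Fin.consEquiv (fun _ => Bool)).sum_comp, Fintype.sum_prod_type, Finset.sum_comm]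
  refine Finset.sum_congr rfl fun u _ => ?_
  simp [Fin.consEquiv]

theorem sum_sg_sq (m : ℕ) : ∑ u : Fin m → Bool, (∑ i, sg (u i)) ^ 2 = m * 2 ^ m := by
  induction m with
  | zero => simp
  | succ m ih =>
    rw [sum_cons]
    have : ∀ u : Fin m → Bool, ((∑ i, sg ((Fin.cons true u : Fin (m + 1) → Bool) i)) ^ 2 +
        (∑ i, sg ((Fin.cons false u : Fin (m + 1) → Bool) i)) ^ 2) =
        2 * (∑ i, sg (u i)) ^ 2 + 2 := by
      intro u
      rw [Fin.sum_univ_succ, Fin.sum_univ_succ]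
      simp only [Fin.cons_zero, Fin.cons_succ]
      simp only [sg, if_true, Bool.false_eq_true, if_false]
      ring
    simp only [this]
    rw [Finset.sum_add_distrib, ← Finset.mul_sum, ih]
    simp
    ring

theorem sum_sg_four (m : ℕ) :
    ∑ u : Fin m → Bool, (∑ i, sg (u i)) ^ 4 ≤ 3 * (m : ℝ) ^ 2 * 2 ^ m := by
  induction m with
  | zero => simp
  | succ m ih =>
    rw [sum_cons]
    have : ∀ u : Fin m → Bool, ((∑ i, sg ((Fin.cons true u : Fin (m + 1) → Bool) i)) ^ 4 +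
        (∑ i, sg ((Fin.cons false u : Fin (m + 1) → Bool) i)) ^ 4) =
        2 * (∑ i, sg (u i)) ^ 4 + 12 * (∑ i, sg (u i)) ^ 2 + 2 := by
      intro u
      rw [Fin.sum_univ_succ, Fin.sum_univ_succ]
      simp only [Fin.cons_zero, Fin.cons_succ]
      simp only [sg, if_true, Bool.false_eq_true, if_false]
      ring
    simp only [this]
    rw [Finset.sum_add_distrib, Finset.sum_add_distrib, ← Finset.mul_sum, ← Finset.mul_sum,
      sum_sg_sq]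
    simp only [Finset.sum_const, Finset.card_univ, Fintype.card_fun, Fintype.card_bool,
      Fintype.card_fin, nsmul_eq_mul]
    push_cast
    have h2 : (0 : ℝ) < 2 ^ m := by positivity
    have h3 : 3 * ((m : ℝ) + 1) ^ 2 * 2 ^ (m + 1) =
        2 * (3 * (m : ℝ) ^ 2 * 2 ^ m) + 12 * (m * 2 ^ m) + 6 * 2 ^ m := by ring
    rw [h3]
    linarith

theorem sum_append (m N : ℕ) (F : (Fin (m + N) → Bool) → ℝ) :
    ∑ ε : Fin (m + N) → Bool, F ε =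
      ∑ u : Fin m → Bool, ∑ v : Fin N → Bool, F (Fin.append u v) := by
  rw [← (Fin.appendEquiv m N).sum_comp, Fintype.sum_prod_type]
  rfl

section step

variable {X : Type} [NormedAddCommGroup X] [NormedSpace ℝ X]

/-- the enlarged space -/
abbrev Big (X : Type) [NormedAddCommGroup X] := WithLp 4 (WithLp 2 (ℝ × X) × X)

/-- element with three coordinates -/
def mk (a : ℝ) (x y : X) : Big X := WithLp.toLp 4 (WithLp.toLp 2 (a, x), y)

theorem mk_norm4 (a : ℝ) (x y : X) : ‖mk a x y‖ ^ 4 = (a ^ 2 + ‖x‖ ^ 2) ^ 2 + ‖y‖ ^ 4 := by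
  rw [norm4_pow]
  have h1 : ‖(mk a x y).fst‖ ^ 2 = a ^ 2 + ‖x‖ ^ 2 := by
    rw [WithLp.prod_norm_sq_eq_of_L2]
    simp [mk]
  have h2 : (mk a x y).snd = y := rfl
  rw [h2, ← h1]
  ring

theorem mk_add (a b : ℝ) (x y z w : X) : mk a x y + mk b z w = mk (a + b) (x + z) (y + w) := rfl

theorem mk_smul (c a : ℝ) (x y : X) : c • mk a x y = mk (c * a) (c • x) (c • y) := rfl

theorem mk_zero : mk 0 0 0 = (0 : Big X) := rfl

theorem mk_sum {ι : Type} (s : Finset ι) (a : ι → ℝ) (x y : ι → X) :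
    ∑ i ∈ s, mk (a i) (x i) (y i) = mk (∑ i ∈ s, a i) (∑ i ∈ s, x i) (∑ i ∈ s, y i) := by
  classical
  induction s using Finset.induction_on with
  | empty => simp [mk_zero]
  | insert i s hi ih => rw [Finset.sum_insert hi, ih, mk_add, Finset.sum_insert hi,
      Finset.sum_insert hi, Finset.sum_insert hi]

open Classical in
/-- the combined predictable sequence -/
noncomputable def stepF {N : ℕ} (f : Fin N → (Fin N → Bool) → X) (m : ℕ) (a h g : ℝ) :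
    Fin (m + N) → (Fin (m + N) → Bool) → Big X := fun j ε =>
  Fin.addCases (fun _ => mk a 0 0)
    (fun i => if (∀ k : Fin m, ε (Fin.castAdd N k) = true) then
        mk 0 (h • f i (fun k => ε (Fin.natAdd m k))) 0
      else mk 0 0 (g • f i (fun k => ε (Fin.natAdd m k)))) j

theorem stepF_pred {N : ℕ} (f : Fin N → (Fin N → Bool) → X) (m : ℕ) (a h g : ℝ)
    (pred : ∀ j ε ε', (∀ i < j, ε i = ε' i) → f j ε = f j ε') :
    ∀ j ε ε', (∀ i < j, ε i = ε' i) → stepF f m a h g j ε = stepF f m a h g j ε' := by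
  intro j ε ε' hε
  induction j using Fin.addCases with
  | left i => simp [stepF]
  | right i =>
    have h1 : ∀ k : Fin m, ε (Fin.castAdd N k) = ε' (Fin.castAdd N k) := by
      intro k
      apply hε
      rw [Fin.lt_def]
      simp only [Fin.val_castAdd, Fin.val_natAdd]
      omega
    have h2 : f i (fun k => ε (Fin.natAdd m k)) = f i (fun k => ε' (Fin.natAdd m k)) := by
      apply pred
      intro k hk
      apply hε
      rw [Fin.lt_def] at *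
      simp only [Fin.val_natAdd]
      omega
    simp only [stepF, Fin.addCases_right, h1, h2]

theorem stepF_sum {N : ℕ} (f : Fin N → (Fin N → Bool) → X) (m : ℕ) (a h g : ℝ)
    (u u' : Fin m → Bool) (v v' : Fin N → Bool) :
    ∑ j, sg ((Fin.append u v : Fin (m + N) → Bool) j) • stepF f m a h g j (Fin.append u' v') =
      if (∀ k : Fin m, u' k = true) then
        mk (a * ∑ i, sg (u i)) (h • ∑ j, sg (v j) • f j v') 0
      else mk (a * ∑ i, sg (u i)) 0 (g • ∑ j, sg (v j) • f j v') := by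
  rw [Fin.sum_univ_add]
  have e1 : ∀ i : Fin m, sg ((Fin.append u v : Fin (m + N) → Bool) (Fin.castAdd N i)) •
      stepF f m a h g (Fin.castAdd N i) (Fin.append u' v') = mk (a * sg (u i)) 0 0 := by
    intro i
    simp only [stepF, Fin.addCases_left, Fin.append_left, mk_smul, smul_zero, mul_comm]
  rw [Finset.sum_congr rfl fun i _ => e1 i, mk_sum]
  simp only [Finset.sum_const_zero, ← Finset.mul_sum]
  have e0 : (fun k => (Fin.append u' v' : Fin (m + N) → Bool) (Fin.natAdd m k)) = v' := by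
    funext k; simp
  by_cases hu : ∀ k : Fin m, u' k = true
  · rw [if_pos hu]
    have e2 : ∀ i : Fin N, sg ((Fin.append u v : Fin (m + N) → Bool) (Fin.natAdd m i)) •
        stepF f m a h g (Fin.natAdd m i) (Fin.append u' v') =
          mk 0 (h • sg (v i) • f i v') 0 := by
      intro i
      have hu' : ∀ k : Fin m, (Fin.append u' v' : Fin (m + N) → Bool) (Fin.castAdd N k) = true := by
        intro k; rw [Fin.append_left]; exact hu k
      simp only [stepF, Fin.addCases_right, e0]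
      rw [if_pos hu', Fin.append_right, mk_smul, smul_comm]
      simp
    rw [Finset.sum_congr rfl fun i _ => e2 i, mk_sum, mk_add]
    simp only [Finset.sum_const_zero, add_zero, zero_add, ← Finset.smul_sum]
  · rw [if_neg hu]
    have e2 : ∀ i : Fin N, sg ((Fin.append u v : Fin (m + N) → Bool) (Fin.natAdd m i)) •
        stepF f m a h g (Fin.natAdd m i) (Fin.append u' v') =
          mk 0 0 (g • sg (v i) • f i v') := by
      intro i
      have hu' : ¬ ∀ k : Fin m,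
          (Fin.append u' v' : Fin (m + N) → Bool) (Fin.castAdd N k) = true := by
        intro hc; apply hu; intro k; have := hc k; rwa [Fin.append_left] at this
      simp only [stepF, Fin.addCases_right, e0]
      rw [if_neg hu', Fin.append_right, mk_smul, smul_comm]
      simp
    rw [Finset.sum_congr rfl fun i _ => e2 i, mk_sum, mk_add]
    simp only [Finset.sum_const_zero, add_zero, zero_add, ← Finset.smul_sum]

/-- from fourth to second moments -/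
theorem sum_sq_le_of_four {ι : Type} [Fintype ι] (F : ι → ℝ) (K : ℝ)
    (hcard : (Fintype.card ι : ℝ) ≤ K) (h : ∑ i, F i ^ 4 ≤ K) : ∑ i, F i ^ 2 ≤ K := by
  have h1 : ∑ i, F i ^ 2 ≤ ∑ i, ((F i ^ 4 + 1) / 2) := by
    refine Finset.sum_le_sum fun i _ => ?_
    nlinarith [sq_nonneg (F i ^ 2 - 1)]
  rw [← Finset.sum_div, Finset.sum_add_distrib] at h1
  simp at h1
  linarith

theorem stepF_rad {N : ℕ} (f : Fin N → (Fin N → Bool) → X) (m : ℕ) (α : ℝ) (hα : 0 ≤ α)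
    (hmα : 2 * (m : ℝ) * α ≤ 1)
    (rad : ∀ ε : Fin N → Bool, ∑ δ : Fin N → Bool, ‖∑ j, sg (δ j) • f j ε‖ ^ 4 ≤ 2 ^ N)
    (ε : Fin (m + N) → Bool) :
    ∑ δ : Fin (m + N) → Bool, ‖∑ j, sg (δ j) •
      stepF f m (√α) (√(1 - 2 * m * α)) (√(1 - 3 * m ^ 2 * α ^ 2)) j ε‖ ^ 4 ≤ 2 ^ (m + N) := by
  obtain ⟨⟨u', v'⟩, rfl⟩ := (Fin.appendEquiv m N).surjective ε
  change ∑ δ : Fin (m + N) → Bool, ‖∑ j, sg (δ j) •
      stepF f m (√α) (√(1 - 2 * m * α)) (√(1 - 3 * m ^ 2 * α ^ 2)) j (Fin.append u' v')‖ ^ 4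
        ≤ 2 ^ (m + N)
  rw [sum_append]
  simp only [stepF_sum]
  have hm0 : (0 : ℝ) ≤ m := Nat.cast_nonneg m
  have ht : (m : ℝ) ^ 2 * α ^ 2 ≤ 1 / 4 := by
    have : ((m : ℝ) * α) ^ 2 ≤ (1 / 2) ^ 2 := by
      apply pow_le_pow_left₀ (by positivity); linarith
    nlinarith
  have hg0 : 0 ≤ 1 - 3 * (m : ℝ) ^ 2 * α ^ 2 := by nlinarith
  have hh0 : 0 ≤ 1 - 2 * (m : ℝ) * α := by linarith
  have hG4 := rad v'
  have hG2 : ∑ δ : Fin N → Bool, ‖∑ j, sg (δ j) • f j v'‖ ^ 2 ≤ 2 ^ N :=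
    sum_sq_le_of_four _ _ (by simp) hG4
  have hs2 := sum_sg_sq m
  have hs4 := sum_sg_four m
  by_cases hu : ∀ k : Fin m, u' k = true
  · simp only [if_pos hu, mk_norm4]
    have e : ∀ (x : Fin m → Bool) (y : Fin N → Bool),
        (((√α * ∑ i, sg (x i)) ^ 2 + ‖√(1 - 2 * m * α) • ∑ j, sg (y j) • f j v'‖ ^ 2) ^ 2 +
          ‖(0 : X)‖ ^ 4) =
        α ^ 2 * (∑ i, sg (x i)) ^ 4 + 2 * α * (1 - 2 * m * α) * ((∑ i, sg (x i)) ^ 2 *
          ‖∑ j, sg (y j) • f j v'‖ ^ 2) +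
          (1 - 2 * m * α) ^ 2 * ‖∑ j, sg (y j) • f j v'‖ ^ 4 := by
      intro x y
      rw [norm_smul, mul_pow, mul_pow, Real.norm_eq_abs, sq_abs, Real.sq_sqrt hα,
        Real.sq_sqrt hh0, norm_zero]
      ring
    simp only [e]
    simp only [Finset.sum_add_distrib, ← Finset.mul_sum, Finset.sum_const, Finset.card_univ,
      Fintype.card_fun, Fintype.card_bool, Fintype.card_fin, nsmul_eq_mul]
    rw [← Finset.sum_mul, hs2]
    push_cast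
    set S4 := ∑ i : Fin m → Bool, (∑ i_1, sg (i i_1)) ^ 4 with hS4
    set G2 := ∑ δ : Fin N → Bool, ‖∑ j, sg (δ j) • f j v'‖ ^ 2 with hG2'
    set G4 := ∑ δ : Fin N → Bool, ‖∑ j, sg (δ j) • f j v'‖ ^ 4 with hG4'
    have hpm : (0 : ℝ) < 2 ^ m := by positivity
    have hpN : (0 : ℝ) < 2 ^ N := by positivity
    have A1 : (2 : ℝ) ^ N * (α ^ 2 * S4) ≤ 2 ^ N * (α ^ 2 * (3 * (m : ℝ) ^ 2 * 2 ^ m)) := by
      gcongr
    have A2 : 2 * α * (1 - 2 * m * α) * (m * 2 ^ m * G2) ≤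
        2 * α * (1 - 2 * m * α) * (m * 2 ^ m * 2 ^ N) := by
      gcongr
    have A3 : (2 : ℝ) ^ m * ((1 - 2 * m * α) ^ 2 * G4) ≤
        2 ^ m * ((1 - 2 * m * α) ^ 2 * 2 ^ N) := by
      gcongr
    have A4 : α ^ 2 * (3 * (m : ℝ) ^ 2) + 2 * α * (1 - 2 * m * α) * m + (1 - 2 * m * α) ^ 2
        ≤ 1 := by
      nlinarith [mul_nonneg hm0 hα]
    have A5 : ((2 : ℝ) ^ m * 2 ^ N) * (α ^ 2 * (3 * (m : ℝ) ^ 2) + 2 * α * (1 - 2 * m * α) * m +
        (1 - 2 * m * α) ^ 2) ≤ ((2 : ℝ) ^ m * 2 ^ N) * 1 := by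
      gcongr
    rw [pow_add]
    nlinarith
  · simp only [if_neg hu, mk_norm4]
    have e : ∀ (x : Fin m → Bool) (y : Fin N → Bool),
        (((√α * ∑ i, sg (x i)) ^ 2 + ‖(0 : X)‖ ^ 2) ^ 2 +
          ‖√(1 - 3 * m ^ 2 * α ^ 2) • ∑ j, sg (y j) • f j v'‖ ^ 4) =
        α ^ 2 * (∑ i, sg (x i)) ^ 4 +
          (1 - 3 * m ^ 2 * α ^ 2) ^ 2 * ‖∑ j, sg (y j) • f j v'‖ ^ 4 := by
      intro x y
      have e4 : √(1 - 3 * (m : ℝ) ^ 2 * α ^ 2) ^ 4 = (1 - 3 * (m : ℝ) ^ 2 * α ^ 2) ^ 2 := by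
        rw [show √(1 - 3 * (m : ℝ) ^ 2 * α ^ 2) ^ 4 = (√(1 - 3 * (m : ℝ) ^ 2 * α ^ 2) ^ 2) ^ 2 by
          ring, Real.sq_sqrt hg0]
      rw [norm_smul, mul_pow, mul_pow, Real.norm_eq_abs, abs_of_nonneg (Real.sqrt_nonneg _),
        Real.sq_sqrt hα, norm_zero, e4]
      ring
    simp only [e]
    simp only [Finset.sum_add_distrib, ← Finset.mul_sum, Finset.sum_const, Finset.card_univ,
      Fintype.card_fun, Fintype.card_bool, Fintype.card_fin, nsmul_eq_mul]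
    push_cast
    set S4 := ∑ i : Fin m → Bool, (∑ i_1, sg (i i_1)) ^ 4 with hS4
    set G4 := ∑ δ : Fin N → Bool, ‖∑ j, sg (δ j) • f j v'‖ ^ 4 with hG4'
    have hpm : (0 : ℝ) < 2 ^ m := by positivity
    have hpN : (0 : ℝ) < 2 ^ N := by positivity
    have A1 : (2 : ℝ) ^ N * (α ^ 2 * S4) ≤ 2 ^ N * (α ^ 2 * (3 * (m : ℝ) ^ 2 * 2 ^ m)) := by
      gcongr
    have A3 : (2 : ℝ) ^ m * ((1 - 3 * m ^ 2 * α ^ 2) ^ 2 * G4) ≤
        2 ^ m * ((1 - 3 * m ^ 2 * α ^ 2) ^ 2 * 2 ^ N) := by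
      gcongr
    have A4 : α ^ 2 * (3 * (m : ℝ) ^ 2) + (1 - 3 * m ^ 2 * α ^ 2) ^ 2 ≤ 1 := by
      nlinarith [mul_nonneg (mul_nonneg (sq_nonneg (m : ℝ)) (sq_nonneg α)) hg0]
    have A5 : ((2 : ℝ) ^ m * 2 ^ N) * (α ^ 2 * (3 * (m : ℝ) ^ 2) +
        (1 - 3 * m ^ 2 * α ^ 2) ^ 2) ≤ ((2 : ℝ) ^ m * 2 ^ N) * 1 := by
      gcongr
    rw [pow_add]
    nlinarith

theorem stepF_val {N : ℕ} (f : Fin N → (Fin N → Bool) → X) (m : ℕ) (α κ : ℝ) (hα : 0 ≤ α)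
    (hmα : 2 * (m : ℝ) * α ≤ 1)
    (val : κ * 2 ^ N ≤ ∑ ε : Fin N → Bool, ‖∑ j, sg (ε j) • f j ε‖ ^ 2) :
    ((1 - 3 * m ^ 2 * α ^ 2) * κ + (α * m ^ 2 + (1 - 2 * m * α) * κ -
      (1 - 3 * m ^ 2 * α ^ 2) * κ) / 2 ^ m) * 2 ^ (m + N) ≤
    ∑ ε : Fin (m + N) → Bool, ‖∑ j, sg (ε j) •
      stepF f m (√α) (√(1 - 2 * m * α)) (√(1 - 3 * m ^ 2 * α ^ 2)) j ε‖ ^ 2 := by
  classical
  rw [sum_append]
  simp only [stepF_sum]
  have hm0 : (0 : ℝ) ≤ m := Nat.cast_nonneg m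
  have ht : (m : ℝ) ^ 2 * α ^ 2 ≤ 1 / 4 := by
    have : ((m : ℝ) * α) ^ 2 ≤ (1 / 2) ^ 2 := by
      apply pow_le_pow_left₀ (by positivity); linarith
    nlinarith
  have hg0 : 0 ≤ 1 - 3 * (m : ℝ) ^ 2 * α ^ 2 := by nlinarith
  have hh0 : 0 ≤ 1 - 2 * (m : ℝ) * α := by linarith
  have key : ∀ u : Fin m → Bool,
      2 ^ N * ((1 - 3 * m ^ 2 * α ^ 2) * κ +
        (if u = (fun _ => true) then (α * m ^ 2 + (1 - 2 * m * α) * κ -
          (1 - 3 * m ^ 2 * α ^ 2) * κ) else 0)) ≤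
      ∑ v : Fin N → Bool, ‖if (∀ k : Fin m, u k = true) then
        mk (√α * ∑ i, sg (u i)) (√(1 - 2 * m * α) • ∑ j, sg (v j) • f j v) 0
      else mk (√α * ∑ i, sg (u i)) 0
        (√(1 - 3 * m ^ 2 * α ^ 2) • ∑ j, sg (v j) • f j v)‖ ^ 2 := by
    intro u
    by_cases hu : ∀ k : Fin m, u k = true
    · have hu' : u = fun _ => true := funext hu
      simp only [if_pos hu, if_pos hu']
      have e : ∀ v : Fin N → Bool,
          ‖mk (√α * ∑ i, sg (u i)) (√(1 - 2 * m * α) • ∑ j, sg (v j) • f j v) 0‖ ^ 2 =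
            α * m ^ 2 + (1 - 2 * m * α) * ‖∑ j, sg (v j) • f j v‖ ^ 2 := by
        intro v
        have hsum : ∑ i : Fin m, sg (u i) = m := by
          simp [hu, sg]
        have h4 : (‖mk (√α * ∑ i, sg (u i))
            (√(1 - 2 * m * α) • ∑ j, sg (v j) • f j v) 0‖ ^ 2) ^ 2 =
            (α * m ^ 2 + (1 - 2 * m * α) * ‖∑ j, sg (v j) • f j v‖ ^ 2) ^ 2 := by
          rw [← pow_mul, mk_norm4, hsum, norm_smul, mul_pow, mul_pow, Real.norm_eq_abs, sq_abs,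
            Real.sq_sqrt hα, Real.sq_sqrt hh0, norm_zero]
          ring
        have h5 : 0 ≤ α * m ^ 2 + (1 - 2 * m * α) * ‖∑ j, sg (v j) • f j v‖ ^ 2 := by
          positivity
        exact (sq_eq_sq₀ (by positivity) h5).1 h4
      simp only [e]
      simp only [Finset.sum_add_distrib, ← Finset.mul_sum, Finset.sum_const, Finset.card_univ,
        Fintype.card_fun, Fintype.card_bool, Fintype.card_fin, nsmul_eq_mul]
      push_cast
      have hval := mul_le_mul_of_nonneg_left val hh0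
      linear_combination hval
    · have hu' : ¬ (u = fun _ => true) := fun hc => hu (fun k => by rw [hc])
      simp only [if_neg hu, if_neg hu', add_zero]
      have e : ∀ v : Fin N → Bool,
          (1 - 3 * m ^ 2 * α ^ 2) * ‖∑ j, sg (v j) • f j v‖ ^ 2 ≤
          ‖mk (√α * ∑ i, sg (u i)) 0
            (√(1 - 3 * m ^ 2 * α ^ 2) • ∑ j, sg (v j) • f j v)‖ ^ 2 := by
        intro v
        have e4 : √(1 - 3 * (m : ℝ) ^ 2 * α ^ 2) ^ 4 = (1 - 3 * (m : ℝ) ^ 2 * α ^ 2) ^ 2 := by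
          rw [show √(1 - 3 * (m : ℝ) ^ 2 * α ^ 2) ^ 4 = (√(1 - 3 * (m : ℝ) ^ 2 * α ^ 2) ^ 2) ^ 2 by
            ring, Real.sq_sqrt hg0]
        have h4 : ((1 - 3 * m ^ 2 * α ^ 2) * ‖∑ j, sg (v j) • f j v‖ ^ 2) ^ 2 ≤
            (‖mk (√α * ∑ i, sg (u i)) 0
              (√(1 - 3 * m ^ 2 * α ^ 2) • ∑ j, sg (v j) • f j v)‖ ^ 2) ^ 2 := by
          have hy : ‖√(1 - 3 * (m : ℝ) ^ 2 * α ^ 2) • ∑ j, sg (v j) • f j v‖ ^ 4 =
              (1 - 3 * (m : ℝ) ^ 2 * α ^ 2) ^ 2 * ‖∑ j, sg (v j) • f j v‖ ^ 4 := by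
            rw [norm_smul, mul_pow, Real.norm_eq_abs, abs_of_nonneg (Real.sqrt_nonneg _), e4]
          rw [← pow_mul, mk_norm4, hy]
          have : 0 ≤ ((√α * ∑ i, sg (u i)) ^ 2 + ‖(0 : X)‖ ^ 2) ^ 2 := by positivity
          linear_combination this
        exact (abs_le_of_sq_le_sq' h4 (by positivity)).2
      calc 2 ^ N * ((1 - 3 * m ^ 2 * α ^ 2) * κ)
          = (1 - 3 * m ^ 2 * α ^ 2) * (κ * 2 ^ N) := by ring
        _ ≤ (1 - 3 * m ^ 2 * α ^ 2) * ∑ v : Fin N → Bool, ‖∑ j, sg (v j) • f j v‖ ^ 2 :=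
            mul_le_mul_of_nonneg_left val hg0
        _ = ∑ v : Fin N → Bool, (1 - 3 * m ^ 2 * α ^ 2) * ‖∑ j, sg (v j) • f j v‖ ^ 2 := by
            rw [Finset.mul_sum]
        _ ≤ _ := Finset.sum_le_sum fun v _ => e v
  refine le_trans (le_of_eq ?_) (Finset.sum_le_sum fun u _ => key u)
  rw [← Finset.mul_sum, Finset.sum_add_distrib, Finset.sum_ite_eq' Finset.univ (fun _ => true)]
  simp only [Finset.sum_const, Finset.card_univ, Finset.mem_univ, if_true,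
    Fintype.card_fun, Fintype.card_bool, Fintype.card_fin, nsmul_eq_mul]
  push_cast
  rw [pow_add]
  field_simp
  try ring

/-- the improvement step -/
noncomputable def Good.step {κ : ℝ} {N : ℕ} (G : Good κ X N) (m : ℕ) (α : ℝ) (hα : 0 ≤ α)
    (hmα : 2 * (m : ℝ) * α ≤ 1) :
    Good ((1 - 3 * m ^ 2 * α ^ 2) * κ + (α * m ^ 2 + (1 - 2 * m * α) * κ -
      (1 - 3 * m ^ 2 * α ^ 2) * κ) / 2 ^ m) (Big X) (m + N) where
  f := stepF G.f m (√α) (√(1 - 2 * m * α)) (√(1 - 3 * m ^ 2 * α ^ 2))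
  pred := stepF_pred _ _ _ _ _ G.pred
  rad := stepF_rad _ _ _ hα hmα G.rad
  val := stepF_val _ _ _ _ hα hmα G.val

end step

/-- the enlarged bundled space -/
noncomputable def Sp.big (S : Sp) : Sp where
  X := Big S.X
  star := star_four (star_two star_real S.star) S.star

/-- attainable values -/
def P (κ : ℝ) : Prop := ∃ (S : Sp) (N : ℕ), Nonempty (Good κ S.X N)

theorem P_zero : P 0 := by
  refine ⟨⟨ℝ, star_real⟩, 0, ⟨⟨fun j => j.elim0, fun j => j.elim0, ?_, ?_⟩⟩⟩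
  · intro ε; simp
  · simp

theorem P_unbounded : ∀ C : ℝ, ∃ κ, C ≤ κ ∧ P κ := by
  by_contra hcon
  push Not at hcon
  obtain ⟨C, hC⟩ := hcon
  set T : Set ℝ := {κ | P κ} with hT
  have hne : T.Nonempty := ⟨0, P_zero⟩
  have hbdd : BddAbove T := ⟨C, fun κ hκ => by
    by_contra hlt
    exact hC κ (not_le.1 hlt).le hκ⟩
  set c := sSup T with hc
  have hc0 : 0 ≤ c := le_csSup hbdd P_zero
  have hle : ∀ κ, P κ → κ ≤ c := fun κ hκ => le_csSup hbdd hκ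
  set m : ℕ := ⌈2 * c⌉₊ + 1 with hm
  have hm1 : 2 * c + 1 ≤ (m : ℝ) := by
    rw [hm]; push_cast
    have := Nat.le_ceil (2 * c)
    linarith
  have hm0 : (1 : ℝ) ≤ m := by linarith
  have h2m : (0 : ℝ) < 2 ^ m := by positivity
  set α : ℝ := 1 / (2 ^ m * (6 * m * (c + 1))) with hα
  have hden : (0 : ℝ) < 2 ^ m * (6 * m * (c + 1)) := by positivity
  have hα0 : 0 < α := by rw [hα]; positivity
  have hαeq : α * (2 ^ m * (6 * m * (c + 1))) = 1 := by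
    rw [hα]; field_simp
  have h2m1 : (1 : ℝ) ≤ 2 ^ m := one_le_pow₀ (by norm_num)
  have hmα : 2 * (m : ℝ) * α ≤ 1 := by
    have h1 : 2 * (m : ℝ) * α ≤ α * (2 ^ m * (6 * m * (c + 1))) := by
      have h3 : 2 * (m : ℝ) ≤ 2 ^ m * (6 * m * (c + 1)) := by
        have h4 : 1 * (6 * (m : ℝ) * 1) ≤ 2 ^ m * (6 * m * (c + 1)) := by
          apply mul_le_mul h2m1 _ (by positivity) (by positivity)
          apply mul_le_mul_of_nonneg_left _ (by positivity)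
          linarith
        nlinarith
      calc 2 * (m : ℝ) * α = α * (2 * m) := by ring
        _ ≤ _ := mul_le_mul_of_nonneg_left h3 hα0.le
    rw [hαeq] at h1
    exact h1
  set δ : ℝ := α * m / (2 * 2 ^ m) with hδ
  have hδ0 : 0 < δ := by rw [hδ]; positivity
  obtain ⟨κ, hκT, hκ⟩ := exists_lt_of_lt_csSup hne (show c - δ < sSup T by rw [← hc]; linarith)
  have hκc : κ ≤ c := hle κ hκT
  obtain ⟨S, N, ⟨G⟩⟩ := hκT
  have hstep := hle _ ⟨S.big, m + N, ⟨G.step m α hα0.le hmα⟩⟩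
  -- the gain
  have e1 : (1 - 3 * (m : ℝ) ^ 2 * α ^ 2) * κ + (α * m ^ 2 + (1 - 2 * m * α) * κ -
      (1 - 3 * m ^ 2 * α ^ 2) * κ) / 2 ^ m =
      κ + (α * m * (m - 2 * κ)) / 2 ^ m - 3 * m ^ 2 * α ^ 2 * κ * (1 - 1 / 2 ^ m) := by
    field_simp
    ring
  rw [e1] at hstep
  have e2 : α * m * 1 / 2 ^ m ≤ (α * m * (m - 2 * κ)) / 2 ^ m := by
    apply div_le_div_of_nonneg_right _ h2m.le
    apply mul_le_mul_of_nonneg_left _ (by positivity)
    linarith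
  have e3 : 3 * (m : ℝ) ^ 2 * α ^ 2 * κ * (1 - 1 / 2 ^ m) ≤ 3 * m ^ 2 * α ^ 2 * c := by
    have h01 : 0 ≤ 1 - 1 / (2 : ℝ) ^ m := by
      rw [sub_nonneg, div_le_one h2m]; exact h2m1
    have h02 : 1 - 1 / (2 : ℝ) ^ m ≤ 1 := by
      have : 0 < 1 / (2 : ℝ) ^ m := by positivity
      linarith
    have h03 : κ * (1 - 1 / 2 ^ m) ≤ c := by
      calc κ * (1 - 1 / 2 ^ m) ≤ c * (1 - 1 / 2 ^ m) := mul_le_mul_of_nonneg_right hκc h01
        _ ≤ c * 1 := mul_le_mul_of_nonneg_left h02 hc0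
        _ = c := mul_one c
    calc 3 * (m : ℝ) ^ 2 * α ^ 2 * κ * (1 - 1 / 2 ^ m)
        = 3 * (m : ℝ) ^ 2 * α ^ 2 * (κ * (1 - 1 / 2 ^ m)) := by ring
      _ ≤ 3 * m ^ 2 * α ^ 2 * c := mul_le_mul_of_nonneg_left h03 (by positivity)
  have e4 : 3 * (m : ℝ) ^ 2 * α ^ 2 * c ≤ δ := by
    -- 6 m α c ≤ 1 / 2 ^ m
    have h1 : 6 * (m : ℝ) * α * c * 2 ^ m ≤ 1 := by
      calc 6 * (m : ℝ) * α * c * 2 ^ m ≤ α * (2 ^ m * (6 * m * (c + 1))) := by
            have : 0 ≤ α * 2 ^ m * (6 * m) := by positivity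
            nlinarith
        _ = 1 := hαeq
    rw [hδ, le_div_iff₀ (by positivity)]
    have h2 : 3 * (m : ℝ) ^ 2 * α ^ 2 * c * (2 * 2 ^ m) =
        (α * m) * (6 * (m : ℝ) * α * c * 2 ^ m) := by ring
    rw [h2]
    calc (α * m) * (6 * (m : ℝ) * α * c * 2 ^ m) ≤ (α * m) * 1 :=
          mul_le_mul_of_nonneg_left h1 (by positivity)
      _ = α * m := mul_one _
  have e5 : α * m * 1 / 2 ^ m = 2 * δ := by
    rw [hδ]; field_simp
  linarith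

theorem lp_two_smooth {E : ℕ → Type} [∀ i, NormedAddCommGroup (E i)]
    (hE : ∀ i, Star (E i)) (x y : lp E 2) :
    ‖x + y‖ ^ 2 + ‖x - y‖ ^ 2 ≤ 2 * ‖x‖ ^ 2 + 2 * √3 ^ 2 * ‖y‖ ^ 2 := by
  have hs : ∀ z : lp E 2, HasSum (fun i => ‖z i‖ ^ 2) (‖z‖ ^ 2) := by
    intro z
    have h := lp.hasSum_norm (p := 2) (by norm_num) z
    simpa using h
  rw [Real.sq_sqrt (by norm_num)]
  have h1 := (hs (x + y)).add (hs (x - y))
  have h2 := ((hs x).mul_left 2).add ((hs y).mul_left (2 * 3))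
  refine hasSum_le (fun i => ?_) h1 h2
  have := (hE i).two_smooth (x i) (y i)
  simp only [lp.coeFn_add, lp.coeFn_sub, Pi.add_apply, Pi.sub_apply]
  linarith

/-- the negation of the decoupling statement -/
theorem main :
    ¬ (∀ (X : Type) [NormedAddCommGroup X] [NormedSpace ℝ X] [CompleteSpace X],
      (∃ D : ℝ, ∀ x y : X, ‖x + y‖ ^ 2 + ‖x - y‖ ^ 2 ≤ 2 * ‖x‖ ^ 2 + 2 * D ^ 2 * ‖y‖ ^ 2) →
      ∃ C : ℝ, 0 ≤ C ∧
        ∀ (n : ℕ) (f : (j : Fin n) → (Fin (j : ℕ) → Bool) → X),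
          (1 / 2 ^ n : ℝ) * ∑ ε : Fin n → Bool,
              ‖∑ j : Fin n, (if ε j then (1 : ℝ) else -1) •
                  f j (fun i => ε (Fin.castLE j.isLt.le i))‖ ^ 2
            ≤ C ^ 2 * ((1 / 4 ^ n : ℝ) * ∑ ε : Fin n → Bool, ∑ δ : Fin n → Bool,
              ‖∑ j : Fin n, (if δ j then (1 : ℝ) else -1) •
                  f j (fun i => ε (Fin.castLE j.isLt.le i))‖ ^ 2)) := by
  intro H
  have hP : ∀ k : ℕ, ∃ (S : Sp) (N : ℕ) (κ : ℝ), (k : ℝ) ≤ κ ∧ Nonempty (Good κ S.X N) := by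
    intro k
    obtain ⟨κ, hκ, S, N, hG⟩ := P_unbounded k
    exact ⟨S, N, κ, hκ, hG⟩
  choose S N κ hκ hG using hP
  obtain ⟨C, hC0, hC⟩ := H (lp (fun k => (S k).X) 2)
    ⟨√3, fun x y => lp_two_smooth (fun i => (S i).star) x y⟩
  obtain ⟨k, hk⟩ := exists_nat_gt (C ^ 2)
  obtain ⟨G⟩ := hG k
  have hdec := hC (N k) (fun j u => lp.single 2 k (G.f j (fun i =>
    if h : i < j then u ⟨i, h⟩ else false)))
  have e1 : ∀ (j : Fin (N k)) (ε : Fin (N k) → Bool),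
      G.f j (fun i => if h : i < j then ε (Fin.castLE j.isLt.le ⟨i, h⟩) else false) =
        G.f j ε := by
    intro j ε
    apply G.pred
    intro i hi
    simp only [hi, dif_pos]
    rfl
  have e2 : ∀ δ ε : Fin (N k) → Bool,
      ‖∑ j : Fin (N k), (if δ j then (1 : ℝ) else -1) •
        (lp.single 2 k (G.f j (fun i => if h : i < j then
          ε (Fin.castLE j.isLt.le ⟨i, h⟩) else false)) : lp (fun k => (S k).X) 2)‖ ^ 2 =
      ‖∑ j, sg (δ j) • G.f j ε‖ ^ 2 := by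
    intro δ ε
    have e3 : ∑ j : Fin (N k), (if δ j then (1 : ℝ) else -1) •
        (lp.single 2 k (G.f j (fun i => if h : i < j then
          ε (Fin.castLE j.isLt.le ⟨i, h⟩) else false)) : lp (fun k => (S k).X) 2) =
        lp.single 2 k (∑ j, sg (δ j) • G.f j ε) := by
      have e4 : ∀ x : (S k).X, (lp.single 2 k x : lp (fun k => (S k).X) 2) =
        lp.singleContinuousLinearMap ℝ (fun k => (S k).X) 2 k x := fun x => rfl
      rw [e4, map_sum]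
      refine Finset.sum_congr rfl fun j _ => ?_
      rw [e1, e4, map_smul]
      rfl
    rw [e3, lp.norm_single (by norm_num)]
  simp only [e2] at hdec
  have hval := G.val
  have hrad : ∀ ε : Fin (N k) → Bool,
      ∑ δ : Fin (N k) → Bool, ‖∑ j, sg (δ j) • G.f j ε‖ ^ 2 ≤ 2 ^ (N k) := fun ε =>
    sum_sq_le_of_four _ _ (by simp) (G.rad ε)
  have h2 : (0 : ℝ) < 2 ^ (N k) := by positivity
  have hL : (k : ℝ) ≤ (1 / 2 ^ (N k) : ℝ) * ∑ ε : Fin (N k) → Bool,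
      ‖∑ j, sg (ε j) • G.f j ε‖ ^ 2 := by
    rw [one_div, inv_mul_eq_div, le_div_iff₀ h2]
    exact le_trans (mul_le_mul_of_nonneg_right (hκ k) h2.le) hval
  have hR : (1 / 4 ^ (N k) : ℝ) * ∑ ε : Fin (N k) → Bool, ∑ δ : Fin (N k) → Bool,
      ‖∑ j, sg (δ j) • G.f j ε‖ ^ 2 ≤ 1 := by
    have h4 : (4 : ℝ) ^ (N k) = 2 ^ (N k) * 2 ^ (N k) := by
      rw [← mul_pow]; norm_num
    rw [one_div, inv_mul_eq_div, div_le_one (by positivity), h4]
    refine le_trans (Finset.sum_le_sum fun ε _ => hrad ε) (le_of_eq ?_)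
    simp
  have hfin : (k : ℝ) ≤ C ^ 2 * 1 :=
    le_trans hL (le_trans hdec (mul_le_mul_of_nonneg_left hR (by positivity)))
  linarith

end Pool.Agent.H35.Dec
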