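import Mathlib
import Pool.Agent.H35.WGADefs

set_option autoImplicit false

namespace Pool.Agent.H35.WGA

open MeasureTheory Filter Topology
open scoped InnerProductSpace

theorem memLp_tensor (u v : L2I) :
    MemLp (fun x : ℝ × ℝ => u x.1 * v x.2) 2 (muI.prod muI) := by
  have hu := Lp.memLp u
  have hv := Lp.memLp v
  have hm : AEStronglyMeasurable (fun x : ℝ × ℝ => u x.1 * v x.2) (muI.prod muI) :=
    (hu.1.comp_fst).mul (hv.1.comp_snd)
  rw [memLp_two_iff_integrable_sq hm]
  have h1 := hu.integrable_sq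
  have h2 := hv.integrable_sq
  have h3 := h1.mul_prod h2
  refine h3.congr (Eventually.of_forall fun x => ?_)
  simp only [mul_pow]

/-- the elementary tensor `u ⊗ v` -/
noncomputable def tens (u v : L2I) : L2Sq := (memLp_tensor u v).toLp _

theorem tens_coe (u v : L2I) :
    (tens u v : ℝ × ℝ → ℝ) =ᵐ[muI.prod muI] fun x => u x.1 * v x.2 :=
  MemLp.coeFn_toLp _

theorem ae_fst {p : ℝ → Prop} (h : ∀ᵐ x ∂muI, p x) : ∀ᵐ x ∂(muI.prod muI), p x.1 :=
  Measure.quasiMeasurePreserving_fst.ae h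

theorem ae_snd {p : ℝ → Prop} (h : ∀ᵐ x ∂muI, p x) : ∀ᵐ x ∂(muI.prod muI), p x.2 :=
  Measure.quasiMeasurePreserving_snd.ae h

/-- the tensor map as a bilinear map -/
noncomputable def TT : L2I →ₗ[ℝ] L2I →ₗ[ℝ] L2Sq :=
  LinearMap.mk₂ ℝ tens
    (by
      intro u u' v
      apply Lp.ext
      filter_upwards [tens_coe (u + u') v, tens_coe u v, tens_coe u' v,
        Lp.coeFn_add (tens u v) (tens u' v), ae_fst (Lp.coeFn_add u u')] with x h1 h2 h3 h4 h5
      rw [h1, h4, h5, Pi.add_apply, Pi.add_apply, h2, h3]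
      ring)
    (by
      intro c u v
      apply Lp.ext
      filter_upwards [tens_coe (c • u) v, tens_coe u v,
        Lp.coeFn_smul c (tens u v), ae_fst (Lp.coeFn_smul c u)] with x h1 h2 h4 h5
      rw [h1, h4, h5, Pi.smul_apply, Pi.smul_apply, h2, smul_eq_mul, smul_eq_mul]
      ring)
    (by
      intro u v v'
      apply Lp.ext
      filter_upwards [tens_coe u (v + v'), tens_coe u v, tens_coe u v',
        Lp.coeFn_add (tens u v) (tens u v'), ae_snd (Lp.coeFn_add v v')] with x h1 h2 h3 h4 h5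
      rw [h1, h4, h5, Pi.add_apply, Pi.add_apply, h2, h3]
      ring)
    (by
      intro c u v
      apply Lp.ext
      filter_upwards [tens_coe u (c • v), tens_coe u v,
        Lp.coeFn_smul c (tens u v), ae_snd (Lp.coeFn_smul c v)] with x h1 h2 h4 h5
      rw [h1, h4, h5, Pi.smul_apply, Pi.smul_apply, h2, smul_eq_mul, smul_eq_mul]
      ring)

theorem TT_apply (u v : L2I) : TT u v = tens u v := rfl

theorem TT_inner (u v u' v' : L2I) :
    ⟪TT u v, TT u' v'⟫_ℝ = ⟪u, u'⟫_ℝ * ⟪v, v'⟫_ℝ := by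
  rw [L2.inner_def, L2.inner_def, L2.inner_def, ← integral_prod_mul]
  apply integral_congr_ae
  filter_upwards [tens_coe u v, tens_coe u' v'] with x h1 h2
  rw [TT_apply, TT_apply, h1, h2]
  simp only [inner]
  simp
  ring

theorem TT_norm (u v : L2I) : ‖TT u v‖ = ‖u‖ * ‖v‖ := by
  have h := TT_inner u v u v
  rw [real_inner_self_eq_norm_sq, real_inner_self_eq_norm_sq, real_inner_self_eq_norm_sq,
    ← mul_pow] at h
  exact (sq_eq_sq₀ (norm_nonneg _) (by positivity)).1 h

/-- description of the bilinear dictionary by unit vectors -/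
theorem mem_dict_iff {g : L2Sq} :
    g ∈ bilinearDictionary ↔ ∃ u v : L2I, ‖u‖ = 1 ∧ ‖v‖ = 1 ∧ g = TT u v := by
  constructor
  · rintro ⟨hg, u, v, huv⟩
    have hgT : g = TT u v := by
      apply Lp.ext
      filter_upwards [huv, tens_coe u v] with x h1 h2
      rw [h1, TT_apply, h2]
    have hn : ‖u‖ * ‖v‖ = 1 := by rw [← TT_norm, ← hgT, hg]
    have hu0 : ‖u‖ ≠ 0 := fun h => by rw [h, zero_mul] at hn; exact zero_ne_one hn
    refine ⟨‖u‖⁻¹ • u, ‖u‖ • v, ?_, ?_, ?_⟩
    · rw [norm_smul, norm_inv, norm_norm, inv_mul_cancel₀ hu0]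
    · rw [norm_smul, norm_norm, hn]
    · rw [map_smul, map_smul, LinearMap.smul_apply, smul_smul, mul_inv_cancel₀ hu0, one_smul, hgT]
  · rintro ⟨u, v, hu, hv, rfl⟩
    exact ⟨by rw [TT_norm, hu, hv, mul_one], u, v, tens_coe u v⟩

theorem dict_norm : ∀ g ∈ bilinearDictionary, ‖g‖ = 1 := fun _ hg => hg.1

/-- the bilinear dictionary is total -/
theorem dict_total (F : L2Sq) (h : ∀ g ∈ bilinearDictionary, ⟪F, g⟫_ℝ = 0) : F = 0 := by
  have h1 : ∀ u v : L2I, ⟪F, TT u v⟫_ℝ = 0 := by
    intro u v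
    by_cases hu : u = 0
    · subst hu; simp
    by_cases hv : v = 0
    · subst hv; simp
    have hu0 : ‖u‖ ≠ 0 := norm_ne_zero_iff.2 hu
    have hv0 : ‖v‖ ≠ 0 := norm_ne_zero_iff.2 hv
    have h2 := h (TT (‖u‖⁻¹ • u) (‖v‖⁻¹ • v)) (mem_dict_iff.2 ⟨_, _, by
      rw [norm_smul, norm_inv, norm_norm, inv_mul_cancel₀ hu0], by
      rw [norm_smul, norm_inv, norm_norm, inv_mul_cancel₀ hv0], rfl⟩)
    rw [map_smul, map_smul, LinearMap.smul_apply, inner_smul_right, inner_smul_right] at h2
    have h3 : ‖v‖⁻¹ ≠ 0 := inv_ne_zero hv0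
    have h4 : ‖u‖⁻¹ ≠ 0 := inv_ne_zero hu0
    rcases mul_eq_zero.1 h2 with h5 | h5
    · exact absurd h5 (by assumption)
    · rcases mul_eq_zero.1 h5 with h6 | h6
      · exact absurd h6 (by assumption)
      · exact h6
  have hint : Integrable (F : ℝ × ℝ → ℝ) (muI.prod muI) :=
    (Lp.memLp F).integrable one_le_two
  -- rectangles
  have hrect : ∀ A B : Set ℝ, MeasurableSet A → MeasurableSet B →
      ∫ x in A ×ˢ B, F x ∂(muI.prod muI) = 0 := by
    intro A B hA hB
    have h2 := h1 (indicatorConstLp 2 hA (measure_ne_top muI A) (1 : ℝ))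
      (indicatorConstLp 2 hB (measure_ne_top muI B) (1 : ℝ))
    rw [L2.inner_def] at h2
    rw [← integral_indicator (hA.prod hB), ← h2]
    apply integral_congr_ae
    filter_upwards [tens_coe (indicatorConstLp 2 hA (measure_ne_top muI A) (1 : ℝ))
      (indicatorConstLp 2 hB (measure_ne_top muI B) (1 : ℝ)),
      ae_fst (indicatorConstLp_coeFn (p := 2) (hs := hA) (hμs := measure_ne_top muI A)
        (c := (1 : ℝ))),
      ae_snd (indicatorConstLp_coeFn (p := 2) (hs := hB) (hμs := measure_ne_top muI B)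
        (c := (1 : ℝ)))] with x h3 h4 h5
    rw [TT_apply, h3, h4, h5]
    by_cases hxA : x.1 ∈ A
    · by_cases hxB : x.2 ∈ B
      · rw [Set.indicator_of_mem (Set.mk_mem_prod hxA hxB), Set.indicator_of_mem hxA,
          Set.indicator_of_mem hxB]
        simp
      · rw [Set.indicator_of_notMem (fun hx => hxB hx.2), Set.indicator_of_notMem hxB]
        simp
    · rw [Set.indicator_of_notMem (fun hx => hxA hx.1), Set.indicator_of_notMem hxA]
      simp
  -- all measurable sets
  have hall : ∀ S : Set (ℝ × ℝ), MeasurableSet S → ∫ x in S, F x ∂(muI.prod muI) = 0 := by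
    intro S hS
    induction S, hS using MeasurableSpace.induction_on_inter generateFrom_prod.symm
      isPiSystem_prod with
    | empty => simp
    | basic S hS =>
      obtain ⟨A, hA, B, hB, rfl⟩ := hS
      exact hrect A B hA hB
    | compl S hS ih =>
      have h2 := integral_add_compl hS hint
      rw [ih, zero_add] at h2
      rw [h2]
      have h3 := hrect Set.univ Set.univ MeasurableSet.univ MeasurableSet.univ
      rwa [Set.univ_prod_univ, setIntegral_univ] at h3
    | iUnion f hf hm ih =>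
      rw [integral_iUnion hm hf hint.integrableOn]
      simp [ih]
  have hzero := hint.ae_eq_zero_of_forall_setIntegral_eq_zero (fun S hS _ => hall S hS)
  apply Lp.ext
  filter_upwards [hzero, Lp.coeFn_zero ℝ 2 (muI.prod muI)] with x h2 h3
  rw [h2, h3]

/-- the intervals used for an orthonormal sequence -/
def ivl (n : ℕ) : Set ℝ := Set.Ioc (1 / ((n : ℝ) + 2)) (1 / ((n : ℝ) + 1))

theorem ivl_meas (n : ℕ) : MeasurableSet (ivl n) := measurableSet_Ioc

theorem ivl_measure (n : ℕ) :
    muI.real (ivl n) = 1 / ((n : ℝ) + 1) - 1 / ((n : ℝ) + 2) := by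
  have h1 : ivl n ⊆ Set.Icc 0 1 := by
    intro x hx
    have hn : (0 : ℝ) ≤ n := Nat.cast_nonneg n
    have h2 : 0 < 1 / ((n : ℝ) + 2) := by positivity
    have h3 : 1 / ((n : ℝ) + 1) ≤ 1 := by
      rw [div_le_one (by positivity)]; linarith
    exact ⟨by linarith [hx.1], by linarith [hx.2]⟩
  have h2 : 1 / ((n : ℝ) + 2) ≤ 1 / ((n : ℝ) + 1) := by
    apply one_div_le_one_div_of_le (by positivity); linarith
  rw [measureReal_def, muI, Measure.restrict_apply (ivl_meas n), Set.inter_eq_self_of_subset_left h1,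
    ivl, Real.volume_Ioc, ENNReal.toReal_ofReal (by linarith)]

theorem ivl_disj {i j : ℕ} (hij : i ≠ j) : ivl i ∩ ivl j = ∅ := by
  have key : ∀ i j : ℕ, i < j → ivl i ∩ ivl j = ∅ := by
    intro i j hij
    ext x
    simp only [Set.mem_inter_iff, Set.mem_empty_iff_false, iff_false, not_and]
    intro h1 h2
    have h3 : (i : ℝ) + 1 ≤ j := by exact_mod_cast hij
    have h4 : 1 / ((j : ℝ) + 1) ≤ 1 / ((i : ℝ) + 2) := by
      apply one_div_le_one_div_of_le (by positivity); linarith
    linarith [h1.1, h2.2]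
  rcases lt_or_gt_of_ne hij with h | h
  · exact key i j h
  · rw [Set.inter_comm]; exact key j i h

/-- an orthonormal sequence in `L_2([0,1])` -/
theorem exists_orthonormal : ∃ e : ℕ → L2I, Orthonormal ℝ e := by
  have hpos : ∀ n : ℕ, 0 < 1 / ((n : ℝ) + 1) - 1 / ((n : ℝ) + 2) := by
    intro n
    have : 1 / ((n : ℝ) + 2) < 1 / ((n : ℝ) + 1) := by
      apply one_div_lt_one_div_of_lt (by positivity); linarith
    linarith
  refine ⟨fun n => indicatorConstLp 2 (ivl_meas n) (measure_ne_top muI _)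
    ((√(1 / ((n : ℝ) + 1) - 1 / ((n : ℝ) + 2)))⁻¹), ?_⟩
  rw [orthonormal_iff_ite]
  intro i j
  rw [L2.inner_indicatorConstLp_indicatorConstLp (ivl_meas i) (ivl_meas j)
    (measure_ne_top muI _) (measure_ne_top muI _)]
  by_cases hij : i = j
  · subst hij
    rw [if_pos rfl, Set.inter_self, ivl_measure]
    have h1 := hpos i
    rw [real_inner_self_eq_norm_sq, Real.norm_eq_abs, sq_abs, inv_pow, Real.sq_sqrt h1.le,
      smul_eq_mul, mul_inv_cancel₀ h1.ne']
  · rw [if_neg hij, ivl_disj hij]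
    simp

end Pool.Agent.H35.WGA
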