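import Mathlib

set_option autoImplicit false
set_option linter.unusedSectionVars false

namespace Pool.Agent.H35.WGA

open Finset Filter Topology
open scoped InnerProductSpace

/-- Elementary transitions of the list of singular values. -/
inductive Step {ι : Type} [DecidableEq ι] (c : ℝ) (s s' : ι → ℝ) : Prop
  | junk (i : ι) (h : s i = c) (h' : s' = Function.update s i 0) : Step c s s'
  | work (i j : ι) (hij : i ≠ j) (a b a' b' : ℝ) (hi : s i = a) (hj : s j = b)
      (hb : 0 ≤ b) (hc : 0 ≤ c) (hca : c ≤ a) (h1 : a' - b' = a - b - c) (h2 : 0 ≤ a' + b')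
      (h3 : (a' + b') ^ 2 = (a + b) ^ 2 - 3 * c ^ 2 + 2 * c * (a - b))
      (h' : s' = Function.update (Function.update s i a') j b') : Step c s s'

section frames

variable {E : Type} [NormedAddCommGroup E] [InnerProductSpace ℝ E] {ι : Type} [DecidableEq ι]

/-- rotating two vectors of an orthonormal family -/
theorem orthonormal_rot {x : ι → E} (hx : Orthonormal ℝ x) {i j : ι} (hij : i ≠ j) {P Q : ℝ}
    (hPQ : P ^ 2 + Q ^ 2 = 1) :
    Orthonormal ℝ (Function.update (Function.update x i (P • x i - Q • x j)) j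
      (Q • x i + P • x j)) := by
  rw [orthonormal_iff_ite] at *
  have hii := hx i i
  have hjj := hx j j
  have hij' := hx i j
  have hji' := hx j i
  rw [if_pos rfl] at hii hjj
  rw [if_neg hij] at hij'
  rw [if_neg hij.symm] at hji'
  intro k l
  by_cases hkj : k = j
  · subst hkj
    by_cases hlk : l = k
    · subst hlk
      simp only [Function.update_self, if_true]
      simp only [inner_add_left, inner_add_right, inner_smul_left, inner_smul_right, hii, hjj,
        hij', hji', conj_trivial]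
      linear_combination hPQ
    · by_cases hli : l = i
      · subst hli
        rw [if_neg (Ne.symm hlk)]
        rw [Function.update_self, Function.update_of_ne hij, Function.update_self]
        simp only [inner_add_left, inner_sub_right, inner_smul_left, inner_smul_right, hii, hjj,
          hij', hji', conj_trivial]
        ring
      · rw [if_neg (Ne.symm hlk), Function.update_self, Function.update_of_ne hlk,
          Function.update_of_ne hli]
        have h1 := hx i l
        have h2 := hx k l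
        rw [if_neg (Ne.symm hli)] at h1
        rw [if_neg (Ne.symm hlk)] at h2
        simp only [inner_add_left, inner_smul_left, h1, h2, mul_zero, add_zero]
  · by_cases hki : k = i
    · subst hki
      by_cases hlj : l = j
      · subst hlj
        rw [if_neg hij, Function.update_self, Function.update_of_ne hij, Function.update_self]
        simp only [inner_sub_left, inner_add_right, inner_smul_left, inner_smul_right, hii, hjj,
          hij', hji', conj_trivial]
        ring
      · by_cases hlk : l = k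
        · subst hlk
          rw [if_pos rfl, Function.update_of_ne hij, Function.update_self]
          simp only [inner_sub_left, inner_sub_right, inner_smul_left, inner_smul_right, hii, hjj,
            hij', hji', conj_trivial]
          linear_combination hPQ
        · rw [if_neg (Ne.symm hlk), Function.update_of_ne hij, Function.update_self,
            Function.update_of_ne hlj, Function.update_of_ne hlk]
          have h1 := hx k l
          have h2 := hx j l
          rw [if_neg (Ne.symm hlk)] at h1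
          rw [if_neg (Ne.symm hlj)] at h2
          simp only [inner_sub_left, inner_smul_left, h1, h2, mul_zero, sub_zero]
    · rw [Function.update_of_ne hkj, Function.update_of_ne hki]
      have h1 := hx k i
      have h2 := hx k j
      rw [if_neg hki] at h1
      rw [if_neg hkj] at h2
      by_cases hlj : l = j
      · subst hlj
        rw [if_neg hkj, Function.update_self]
        simp only [inner_add_right, inner_smul_right, h1, h2, mul_zero, add_zero]
      · by_cases hli : l = i
        · subst hli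
          rw [if_neg hki, Function.update_of_ne hij, Function.update_self]
          simp only [inner_sub_right, inner_smul_right, h1, h2, mul_zero, sub_zero]
        · rw [Function.update_of_ne hlj, Function.update_of_ne hli]
          exact hx k l

end frames

theorem exists_angle {X Y Z : ℝ} (hZ : 0 ≤ Z) (h : Z ^ 2 = X ^ 2 + Y ^ 2) :
    ∃ P Q : ℝ, P ^ 2 + Q ^ 2 = 1 ∧ Z * (P ^ 2 - Q ^ 2) = X ∧ 2 * Z * P * Q = Y := by
  set θ := Complex.arg (⟨X, Y⟩ : ℂ) with hθ
  have hn : ‖(⟨X, Y⟩ : ℂ)‖ = Z := by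
    rw [Complex.norm_def, Complex.normSq_mk, ← Real.sqrt_sq hZ, h]
    congr 1; ring
  have h1 := Complex.norm_mul_cos_arg (⟨X, Y⟩ : ℂ)
  have h2 := Complex.norm_mul_sin_arg (⟨X, Y⟩ : ℂ)
  rw [hn] at h1 h2
  simp only at h1 h2
  refine ⟨Real.cos (θ / 2), Real.sin (θ / 2), Real.cos_sq_add_sin_sq _, ?_, ?_⟩
  · have h3 : Real.cos θ = Real.cos (θ / 2) ^ 2 - Real.sin (θ / 2) ^ 2 := by
      have := Real.cos_sq_add_sin_sq (θ / 2)
      have h4 : Real.cos θ = 2 * Real.cos (θ / 2) ^ 2 - 1 := by
        rw [← Real.cos_two_mul]; congr 1; ring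
      linarith
    rw [← h3]; exact h1
  · have h3 : Real.sin θ = 2 * Real.sin (θ / 2) * Real.cos (θ / 2) := by
      rw [← Real.sin_two_mul]; congr 1; ring
    rw [← h2, h3]; ring

section realize

variable {E H : Type} [NormedAddCommGroup E] [InnerProductSpace ℝ E]
  [NormedAddCommGroup H] [InnerProductSpace ℝ H]
  (T : E →ₗ[ℝ] E →ₗ[ℝ] H)
  (hT : ∀ u v u' v' : E, ⟪T u v, T u' v'⟫_ℝ = ⟪u, u'⟫_ℝ * ⟪v, v'⟫_ℝ)
  {ι : Type} [DecidableEq ι]

include hT

theorem inner_eq_of_hasSum {x y : ι → E} (hx : Orthonormal ℝ x) (hy : Orthonormal ℝ y)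
    {s : ι → ℝ} {r : H} (hr : HasSum (fun k => s k • T (x k) (y k)) r) (i j : ι) :
    ⟪r, T (x i) (y j)⟫_ℝ = if i = j then s i else 0 := by
  rw [orthonormal_iff_ite] at hx hy
  have h1 : HasSum (fun k => ⟪s k • T (x k) (y k), T (x i) (y j)⟫_ℝ) ⟪r, T (x i) (y j)⟫_ℝ := by
    have := hr.mapL (innerSL ℝ (T (x i) (y j)))
    have e : (fun k => ⟪s k • T (x k) (y k), T (x i) (y j)⟫_ℝ) =
        (fun k => (innerSL ℝ (T (x i) (y j))) (s k • T (x k) (y k))) := by
      funext k
      rw [innerSL_apply_apply, real_inner_comm]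
    rw [e, real_inner_comm]
    exact this
  have h2 : HasSum (fun k => ⟪s k • T (x k) (y k), T (x i) (y j)⟫_ℝ)
      (if i = j then s i else 0) := by
    have h3 : ∀ k, k ≠ i → ⟪s k • T (x k) (y k), T (x i) (y j)⟫_ℝ = 0 := by
      intro k hk
      rw [inner_smul_left, hT, hx k i, if_neg hk]
      simp
    have h4 := hasSum_single i h3
    rw [inner_smul_left, hT, hx i i, hy i j, if_pos rfl] at h4
    simpa using h4
  exact h1.unique h2

/-- one transition can be realized -/
theorem step_realize {x y : ι → E} (hx : Orthonormal ℝ x) (hy : Orthonormal ℝ y)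
    {s s' : ι → ℝ} {c : ℝ} {r : H} (hr : HasSum (fun k => s k • T (x k) (y k)) r)
    (hs : Step c s s') :
    ∃ (x' y' : ι → E) (u v : E), Orthonormal ℝ x' ∧ Orthonormal ℝ y' ∧ ‖u‖ = 1 ∧ ‖v‖ = 1 ∧
      ⟪r, T u v⟫_ℝ = c ∧ HasSum (fun k => s' k • T (x' k) (y' k)) (r - c • T u v) := by
  rcases hs with ⟨i, hi, h'⟩ | ⟨i, j, hij, a, b, a', b', hi, hj, hb, hc, hca, h1, h2, h3, h'⟩
  · refine ⟨x, y, x i, y i, hx, hy, hx.1 i, hy.1 i, ?_, ?_⟩
    · rw [inner_eq_of_hasSum T hT hx hy hr, if_pos rfl, hi]
    · have h4 := hr.update i (0 : H)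
      rw [hi] at h4
      have e1 : (fun k => s' k • T (x k) (y k)) =
          Function.update (fun k => s k • T (x k) (y k)) i 0 := by
        funext k
        rw [h']
        by_cases hk : k = i
        · subst hk; simp
        · simp [Function.update_of_ne hk]
      rw [e1]
      convert h4 using 1
      abel
  · -- coefficients
    have hii := inner_eq_of_hasSum T hT hx hy hr i i
    have hij' := inner_eq_of_hasSum T hT hx hy hr i j
    have hji' := inner_eq_of_hasSum T hT hx hy hr j i
    have hjj := inner_eq_of_hasSum T hT hx hy hr j j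
    rw [if_pos rfl, hi] at hii
    rw [if_pos rfl, hj] at hjj
    rw [if_neg hij] at hij'
    rw [if_neg hij.symm] at hji'
    obtain ⟨C, S, hCS1, hCS2⟩ : ∃ C S : ℝ, C ^ 2 + S ^ 2 = 1 ∧ C ^ 2 * a - S ^ 2 * b = c := by
      rcases eq_or_lt_of_le (show 0 ≤ a + b by linarith) with h0 | h0
      · refine ⟨1, 0, by norm_num, ?_⟩
        have ha0 : a = 0 := by linarith
        have hc0 : c = 0 := by linarith
        rw [ha0, hc0]; ring
      · refine ⟨√((b + c) / (a + b)), √((a - c) / (a + b)), ?_, ?_⟩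
        · rw [Real.sq_sqrt (div_nonneg (by linarith) h0.le),
            Real.sq_sqrt (div_nonneg (by linarith) h0.le)]
          field_simp
          ring
        · rw [Real.sq_sqrt (div_nonneg (by linarith) h0.le),
            Real.sq_sqrt (div_nonneg (by linarith) h0.le)]
          field_simp
          ring
    obtain ⟨P, Q, hPQ1, hPQ2, hPQ3⟩ := exists_angle (X := a + b - c * (C ^ 2 - S ^ 2))
      (Y := -2 * c * C * S) (Z := a' + b') h2 (by
        rw [h3]
        have e1 : C ^ 2 = 1 - S ^ 2 := by linarith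
        have e2 : (1 - S ^ 2) * a - S ^ 2 * b = c := by rw [← e1]; exact hCS2
        have e3 : (a + b) * S ^ 2 = a - c := by linarith
        have e4 : (a + b) * C ^ 2 = b + c := by rw [e1]; linarith
        have e5 : (C ^ 2 - S ^ 2) ^ 2 + 4 * (C ^ 2 * S ^ 2) = 1 := by rw [e1]; ring
        linear_combination (2 * c) * e4 - (2 * c) * e3 - c ^ 2 * e5)
    refine ⟨Function.update (Function.update x i (P • x i - Q • x j)) j (Q • x i + P • x j),
      Function.update (Function.update y i (P • y i - (-Q) • y j)) j ((-Q) • y i + P • y j),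
      C • x i - S • x j, C • y i + S • y j, orthonormal_rot hx hij hPQ1,
      orthonormal_rot hy hij (by rw [neg_sq]; exact hPQ1), ?_, ?_, ?_, ?_⟩
    · rw [← sq_eq_sq₀ (norm_nonneg _) zero_le_one, ← real_inner_self_eq_norm_sq]
      rw [orthonormal_iff_ite] at hx
      simp only [inner_sub_left, inner_sub_right, inner_smul_left, inner_smul_right, hx i i,
        hx j j, hx i j, hx j i, hij, hij.symm, if_true, if_false, conj_trivial]
      linear_combination hCS1
    · rw [← sq_eq_sq₀ (norm_nonneg _) zero_le_one, ← real_inner_self_eq_norm_sq]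
      rw [orthonormal_iff_ite] at hy
      simp only [inner_add_left, inner_add_right, inner_smul_left, inner_smul_right, hy i i,
        hy j j, hy i j, hy j i, hij, hij.symm, if_true, if_false, conj_trivial]
      linear_combination hCS1
    · simp only [map_sub, map_add, map_smul, LinearMap.sub_apply, LinearMap.smul_apply,
        inner_sub_right, inner_add_right, inner_smul_right, hii, hij', hji', hjj]
      linear_combination hCS2
    · have hu1 := (hr.update i (a' • T (P • x i - Q • x j) (P • y i - (-Q) • y j))).update j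
        (b' • T (Q • x i + P • x j) ((-Q) • y i + P • y j))
      have e1 : (fun k => s' k • T
          (Function.update (Function.update x i (P • x i - Q • x j)) j (Q • x i + P • x j) k)
          (Function.update (Function.update y i (P • y i - (-Q) • y j)) j
            ((-Q) • y i + P • y j) k)) =
          Function.update (Function.update (fun k => s k • T (x k) (y k)) i
            (a' • T (P • x i - Q • x j) (P • y i - (-Q) • y j))) j
            (b' • T (Q • x i + P • x j) ((-Q) • y i + P • y j)) := by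
        funext k
        rw [h']
        by_cases hkj : k = j
        · subst hkj; simp only [Function.update_self]
        · by_cases hki : k = i
          · subst hki
            simp only [Function.update_of_ne hkj, Function.update_self]
          · simp only [Function.update_of_ne hkj, Function.update_of_ne hki]
      rw [e1]
      convert hu1 using 1
      rw [Function.update_of_ne hij.symm, hi, hj]
      -- algebra
      have A1 : a' * P ^ 2 - b' * Q ^ 2 = a - c * C ^ 2 := by
        have : a' * P ^ 2 - b' * Q ^ 2 =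
          ((a' + b') * (P ^ 2 - Q ^ 2) + (a' - b') * (P ^ 2 + Q ^ 2)) / 2 := by ring
        rw [this, hPQ2, h1, hPQ1]
        linear_combination (c / 2) * hCS1
      have A2 : -(a' * Q ^ 2) + b' * P ^ 2 = b + c * S ^ 2 := by
        have : -(a' * Q ^ 2) + b' * P ^ 2 =
          ((a' + b') * (P ^ 2 - Q ^ 2) - (a' - b') * (P ^ 2 + Q ^ 2)) / 2 := by ring
        rw [this, hPQ2, h1, hPQ1]
        linear_combination -(c / 2) * hCS1
      have A3 : (a' + b') * P * Q = -(c * C * S) := by linarith
      simp only [map_sub, map_add, map_smul, LinearMap.sub_apply, LinearMap.smul_apply,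
        LinearMap.add_apply, smul_sub, smul_add, smul_smul, neg_smul, smul_neg, map_neg,
        sub_neg_eq_add]
      have B1 : (a - c * C ^ 2) • T (x i) (y i) = (a' * P ^ 2 - b' * Q ^ 2) • T (x i) (y i) := by
        rw [A1]
      have B2 : (b + c * S ^ 2) • T (x j) (y j) =
        (-(a' * Q ^ 2) + b' * P ^ 2) • T (x j) (y j) := by rw [A2]
      have B3 : (c * C * S) • T (x i) (y j) = (-((a' + b') * P * Q)) • T (x i) (y j) := by
        rw [A3, neg_neg]
      have B4 : (c * C * S) • T (x j) (y i) = (-((a' + b') * P * Q)) • T (x j) (y i) := by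
        rw [A3, neg_neg]
      linear_combination (norm := module) B1 + B2 - B3 + B4

/-- bound for the supremum over the dictionary -/
theorem abs_inner_le {x y : ι → E} (hx : Orthonormal ℝ x) (hy : Orthonormal ℝ y)
    {s : ι → ℝ} {r : H} (hr : HasSum (fun k => s k • T (x k) (y k)) r) {B : ℝ} (hB : 0 ≤ B)
    (hs : ∀ k, |s k| ≤ B) {u v : E} (hu : ‖u‖ = 1) (hv : ‖v‖ = 1) :
    |⟪r, T u v⟫_ℝ| ≤ B := by
  have h1 : HasSum (fun k => s k * (⟪x k, u⟫_ℝ * ⟪y k, v⟫_ℝ)) ⟪r, T u v⟫_ℝ := by
    have := hr.mapL (innerSL ℝ (T u v))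
    have e : (fun k => s k * (⟪x k, u⟫_ℝ * ⟪y k, v⟫_ℝ)) =
        (fun k => (innerSL ℝ (T u v)) (s k • T (x k) (y k))) := by
      funext k
      rw [innerSL_apply_apply, inner_smul_right, hT, real_inner_comm u (x k), real_inner_comm v (y k)]
    rw [e, real_inner_comm]
    exact this
  have hxs : Summable fun k => ⟪x k, u⟫_ℝ ^ 2 := by
    have := hx.inner_products_summable u
    simpa using this
  have hys : Summable fun k => ⟪y k, v⟫_ℝ ^ 2 := by
    have := hy.inner_products_summable v
    simpa using this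
  have hxb : ∑' k, ⟪x k, u⟫_ℝ ^ 2 ≤ 1 := by
    have := hx.tsum_inner_products_le u
    rw [hu] at this
    simpa using this
  have hyb : ∑' k, ⟪y k, v⟫_ℝ ^ 2 ≤ 1 := by
    have := hy.tsum_inner_products_le v
    rw [hv] at this
    simpa using this
  have hterm : ∀ k, |s k * (⟪x k, u⟫_ℝ * ⟪y k, v⟫_ℝ)| ≤
      B / 2 * ⟪x k, u⟫_ℝ ^ 2 + B / 2 * ⟪y k, v⟫_ℝ ^ 2 := by
    intro k
    rw [abs_mul]
    have h2 : |⟪x k, u⟫_ℝ * ⟪y k, v⟫_ℝ| ≤ (⟪x k, u⟫_ℝ ^ 2 + ⟪y k, v⟫_ℝ ^ 2) / 2 := by
      rw [abs_le]
      constructor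
      · nlinarith [sq_nonneg (⟪x k, u⟫_ℝ + ⟪y k, v⟫_ℝ)]
      · nlinarith [sq_nonneg (⟪x k, u⟫_ℝ - ⟪y k, v⟫_ℝ)]
    calc |s k| * |⟪x k, u⟫_ℝ * ⟪y k, v⟫_ℝ| ≤ B * ((⟪x k, u⟫_ℝ ^ 2 + ⟪y k, v⟫_ℝ ^ 2) / 2) :=
          mul_le_mul (hs k) h2 (abs_nonneg _) hB
      _ = _ := by ring
  have hsum := (hxs.mul_left (B / 2)).add (hys.mul_left (B / 2))
  have habs : Summable fun k => |s k * (⟪x k, u⟫_ℝ * ⟪y k, v⟫_ℝ)| :=
    Summable.of_nonneg_of_le (fun k => abs_nonneg _) hterm hsum
  have h3 : |⟪r, T u v⟫_ℝ| ≤ ∑' k, |s k * (⟪x k, u⟫_ℝ * ⟪y k, v⟫_ℝ)| := by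
    rw [← h1.tsum_eq]
    have := norm_tsum_le_tsum_norm (f := fun k => s k * (⟪x k, u⟫_ℝ * ⟪y k, v⟫_ℝ)) habs
    simpa [Real.norm_eq_abs] using this
  have h4 : ∑' k, |s k * (⟪x k, u⟫_ℝ * ⟪y k, v⟫_ℝ)| ≤
      ∑' k, (B / 2 * ⟪x k, u⟫_ℝ ^ 2 + B / 2 * ⟪y k, v⟫_ℝ ^ 2) :=
    habs.tsum_le_tsum hterm hsum
  rw [(hxs.mul_left (B / 2)).tsum_add (hys.mul_left (B / 2)), tsum_mul_left, tsum_mul_left] at h4
  nlinarith

/-- lower bound for the norm by a finite part -/
theorem norm_sq_ge {x y : ι → E} (hx : Orthonormal ℝ x) (hy : Orthonormal ℝ y)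
    {s : ι → ℝ} {r : H} (hr : HasSum (fun k => s k • T (x k) (y k)) r) (F : Finset ι) :
    ∑ k ∈ F, s k ^ 2 ≤ ‖r‖ ^ 2 := by
  have ho : Orthonormal ℝ (fun k => T (x k) (y k)) := by
    rw [orthonormal_iff_ite] at *
    intro i j
    rw [hT, hx, hy]
    by_cases h : i = j <;> simp [h]
  have h1 := ho.sum_inner_products_le r (s := F)
  have h2 : ∀ k ∈ F, ‖⟪T (x k) (y k), r⟫_ℝ‖ ^ 2 = s k ^ 2 := by
    intro k _
    rw [real_inner_comm, inner_eq_of_hasSum T hT hx hy hr, if_pos rfl, Real.norm_eq_abs, sq_abs]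
  rw [sum_congr rfl h2] at h1
  exact h1

/-- a whole sequence of transitions can be realized -/
theorem realize {s : ℕ → ι → ℝ} {c : ℕ → ℝ} (hs : ∀ k, Step (c k) (s k) (s (k + 1)))
    {x y : ι → E} (hx : Orthonormal ℝ x) (hy : Orthonormal ℝ y) {r0 : H}
    (hr : HasSum (fun k => s 0 k • T (x k) (y k)) r0) :
    ∃ (r φ : ℕ → H), r 0 = r0 ∧
      (∀ k, ∃ u v : E, ‖u‖ = 1 ∧ ‖v‖ = 1 ∧ φ k = T u v) ∧
      (∀ k, ⟪r k, φ k⟫_ℝ = c k) ∧ (∀ k, r (k + 1) = r k - c k • φ k) ∧
      (∀ k, ∃ x' y' : ι → E, Orthonormal ℝ x' ∧ Orthonormal ℝ y' ∧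
        HasSum (fun i => s k i • T (x' i) (y' i)) (r k)) := by
  -- states
  let St (k : ℕ) : Type := {q : H // ∃ x' y' : ι → E, Orthonormal ℝ x' ∧ Orthonormal ℝ y' ∧
    HasSum (fun i => s k i • T (x' i) (y' i)) q}
  have hnext : ∀ (k : ℕ) (q : St k), ∃ (w : H) (q' : St (k + 1)),
      (∃ u v : E, ‖u‖ = 1 ∧ ‖v‖ = 1 ∧ w = T u v) ∧ ⟪(q : H), w⟫_ℝ = c k ∧
      (q' : H) = (q : H) - c k • w := by
    rintro k ⟨q, x', y', hx', hy', hq⟩
    obtain ⟨x'', y'', u, v, h1, h2, h3, h4, h5, h6⟩ := step_realize T hT hx' hy' hq (hs k)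
    exact ⟨T u v, ⟨q - c k • T u v, x'', y'', h1, h2, h6⟩, ⟨u, v, h3, h4, rfl⟩, h5, rfl⟩
  choose w q' h1 h2 h3 using hnext
  let st : (k : ℕ) → St k := fun k => Nat.rec ⟨r0, x, y, hx, hy, hr⟩ (fun k q => q' k q) k
  refine ⟨fun k => (st k).1, fun k => w k (st k), rfl, ?_, ?_, ?_, ?_⟩
  · intro k; exact h1 k (st k)
  · intro k; exact h2 k (st k)
  · intro k; exact h3 k (st k)
  · intro k; exact (st k).2

end realize

end Pool.Agent.H35.WGA
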