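import Mathlib
import Pool.Agent.H35.ClassV
import Pool.Agent.H35.WGARealize

set_option autoImplicit false

namespace Pool.Agent.H35.WGA

open Finset Filter Topology

/-! ### The path inside one block -/

/-- sum of the two singular values after `l` of `m` steps -/
noncomputable def zf (m l : ℕ) : ℝ := √(2 * (1 - l / (m : ℝ) ^ 2) - (1 - l / (m : ℝ)) ^ 2)

/-- larger singular value -/
noncomputable def al (m l : ℕ) : ℝ := (zf m l + (1 - l / (m : ℝ))) / 2

/-- smaller singular value -/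
noncomputable def be (m l : ℕ) : ℝ := (zf m l - (1 - l / (m : ℝ))) / 2

theorem frac_bounds {m l : ℕ} (hm : 1 ≤ m) (hl : l ≤ m) :
    0 ≤ (l : ℝ) / m ∧ (l : ℝ) / m ≤ 1 ∧ (l : ℝ) / (m : ℝ) ^ 2 ≤ (l : ℝ) / m ∧
      0 ≤ (l : ℝ) / (m : ℝ) ^ 2 ∧ (l : ℝ) / (m : ℝ) ^ 2 ≤ 1 / m := by
  have hm' : (1 : ℝ) ≤ m := by exact_mod_cast hm
  have hl' : (l : ℝ) ≤ m := by exact_mod_cast hl
  have hm0 : (0 : ℝ) < m := by linarith
  refine ⟨by positivity, (div_le_one hm0).2 hl', ?_, by positivity, ?_⟩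
  · apply div_le_div_of_nonneg_left (by positivity) hm0
    nlinarith
  · rw [div_le_div_iff₀ (by positivity) hm0]
    nlinarith

theorem zf_sq {m l : ℕ} (hm : 1 ≤ m) (hl : l ≤ m) :
    zf m l ^ 2 = 2 * (1 - l / (m : ℝ) ^ 2) - (1 - l / (m : ℝ)) ^ 2 := by
  obtain ⟨h1, h2, h3, h4, h5⟩ := frac_bounds hm hl
  rw [zf, Real.sq_sqrt]
  nlinarith

theorem zf_nonneg (m l : ℕ) : 0 ≤ zf m l := Real.sqrt_nonneg _

theorem zf_ge {m l : ℕ} (hm : 1 ≤ m) (hl : l ≤ m) : 1 - l / (m : ℝ) ≤ zf m l := by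
  obtain ⟨h1, h2, h3, h4, h5⟩ := frac_bounds hm hl
  apply Real.le_sqrt_of_sq_le
  nlinarith

theorem al_sub_be (m l : ℕ) : al m l - be m l = 1 - l / (m : ℝ) := by
  rw [al, be]; ring

theorem al_add_be (m l : ℕ) : al m l + be m l = zf m l := by
  rw [al, be]; ring

theorem be_nonneg {m l : ℕ} (hm : 1 ≤ m) (hl : l ≤ m) : 0 ≤ be m l := by
  have := zf_ge hm hl
  rw [be]; linarith

theorem al_nonneg {m l : ℕ} (hm : 1 ≤ m) (hl : l ≤ m) : 0 ≤ al m l := by
  have h1 := zf_nonneg m l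
  have h2 := frac_bounds hm hl
  rw [al]; linarith [h2.2.1]

theorem al_sq_add_be_sq {m l : ℕ} (hm : 1 ≤ m) (hl : l ≤ m) :
    al m l ^ 2 + be m l ^ 2 = 1 - l / (m : ℝ) ^ 2 := by
  have h := zf_sq hm hl
  rw [al, be]
  linear_combination (1 / 2) * h

theorem al_le_one {m l : ℕ} (hm : 1 ≤ m) (hl : l ≤ m) : al m l ≤ 1 := by
  have h := al_sq_add_be_sq hm hl
  have h2 := (frac_bounds hm hl).2.2.2.1
  nlinarith [sq_nonneg (be m l), sq_nonneg (al m l - 1)]

theorem be_le_one {m l : ℕ} (hm : 1 ≤ m) (hl : l ≤ m) : be m l ≤ 1 := by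
  have h := al_sq_add_be_sq hm hl
  have h2 := (frac_bounds hm hl).2.2.2.1
  nlinarith [sq_nonneg (al m l), sq_nonneg (be m l - 1)]

theorem al_zero {m : ℕ} : al m 0 = 1 := by
  rw [al, zf]; norm_num

theorem be_zero {m : ℕ} : be m 0 = 0 := by
  rw [be, zf]; norm_num

theorem al_self {m : ℕ} (hm : 1 ≤ m) : al m m = √((1 - 1 / (m : ℝ)) / 2) := by
  have hm' : (1 : ℝ) ≤ m := by exact_mod_cast hm
  have h1 : al m m = be m m := by
    have := al_sub_be m m
    rw [div_self (by positivity)] at this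
    linarith
  have h2 := al_sq_add_be_sq hm le_rfl
  rw [← h1] at h2
  have h3 : (m : ℝ) / (m : ℝ) ^ 2 = 1 / m := by field_simp
  rw [h3] at h2
  have h4 : al m m ^ 2 = (1 - 1 / (m : ℝ)) / 2 := by linarith
  rw [← h4, Real.sqrt_sq (al_nonneg hm le_rfl)]

theorem be_self {m : ℕ} (hm : 1 ≤ m) : be m m = √((1 - 1 / (m : ℝ)) / 2) := by
  rw [← al_self hm]
  have hm' : (1 : ℝ) ≤ m := by exact_mod_cast hm
  have := al_sub_be m m
  rw [div_self (by positivity)] at this
  linarith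

/-! ### The machine -/

/-- number of blocks at stage `p` -/
def NN (s0 p : ℕ) : ℕ := 2 ^ (s0 + p)

/-- the size of the blocks at stage `p` -/
noncomputable def sig (s0 : ℕ) (m : ℕ → ℕ) : ℕ → ℝ
  | 0 => 1 / √(2 ^ s0)
  | p + 1 => sig s0 m p * √((1 - 1 / (m p : ℝ)) / 2)

theorem sig_pos (s0 : ℕ) {m : ℕ → ℕ} (hm : ∀ p, 2 ≤ m p) (p : ℕ) : 0 < sig s0 m p := by
  induction p with
  | zero => rw [sig]; positivity
  | succ p ih =>
    rw [sig]
    have hm' : (2 : ℝ) ≤ m p := by exact_mod_cast hm p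
    have : 0 < (1 - 1 / (m p : ℝ)) / 2 := by
      have : 1 / (m p : ℝ) ≤ 1 / 2 := by
        apply div_le_div_of_nonneg_left <;> linarith
      linarith
    positivity

theorem sig_sq_succ (s0 : ℕ) {m : ℕ → ℕ} (hm : ∀ p, 2 ≤ m p) (p : ℕ) :
    sig s0 m (p + 1) ^ 2 = sig s0 m p ^ 2 * ((1 - 1 / (m p : ℝ)) / 2) := by
  have hm' : (2 : ℝ) ≤ m p := by exact_mod_cast hm p
  have : 1 / (m p : ℝ) ≤ 1 / 2 := by
    apply div_le_div_of_nonneg_left <;> linarith
  rw [sig, mul_pow, Real.sq_sqrt (by linarith)]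

theorem sig_succ_le (s0 : ℕ) {m : ℕ → ℕ} (hm : ∀ p, 2 ≤ m p) (p : ℕ) :
    sig s0 m (p + 1) ≤ sig s0 m p := by
  rw [sig]
  have h := (sig_pos s0 hm p).le
  have : √((1 - 1 / (m p : ℝ)) / 2) ≤ 1 := by
    apply Real.sqrt_le_one.2
    have : 0 ≤ 1 / (m p : ℝ) := by positivity
    linarith
  nlinarith

theorem sig_anti (s0 : ℕ) {m : ℕ → ℕ} (hm : ∀ p, 2 ≤ m p) : Antitone (sig s0 m) :=
  antitone_nat_of_succ_le fun p => sig_succ_le s0 hm p

/-- the list of singular values (main part) in machine state `(p, i, l)` -/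
noncomputable def DD (s0 : ℕ) (m : ℕ → ℕ) (q : ℕ × ℕ × ℕ) (n : ℕ) : ℝ :=
  if n < q.2.1 ∨ (NN s0 q.1 ≤ n ∧ n < NN s0 q.1 + q.2.1) then sig s0 m (q.1 + 1)
  else if n = q.2.1 then sig s0 m q.1 * al (m q.1) q.2.2
  else if n = NN s0 q.1 + q.2.1 then sig s0 m q.1 * be (m q.1) q.2.2
  else if n < NN s0 q.1 then sig s0 m q.1 else 0

/-- one move of the machine -/
def nxt (s0 : ℕ) (m : ℕ → ℕ) (q : ℕ × ℕ × ℕ) : ℕ × ℕ × ℕ :=
  if q.2.2 + 1 < m q.1 then (q.1, q.2.1, q.2.2 + 1)
  else if q.2.1 + 1 < NN s0 q.1 then (q.1, q.2.1 + 1, 0)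
  else (q.1 + 1, 0, 0)

/-- valid machine states -/
def Valid (s0 : ℕ) (m : ℕ → ℕ) (q : ℕ × ℕ × ℕ) : Prop := q.2.1 < NN s0 q.1 ∧ q.2.2 < m q.1

theorem NN_pos (s0 p : ℕ) : 0 < NN s0 p := by rw [NN]; positivity

theorem NN_succ (s0 p : ℕ) : NN s0 (p + 1) = 2 * NN s0 p := by
  rw [NN, NN, ← add_assoc, pow_succ]; ring

theorem Valid.nxt {s0 : ℕ} {m : ℕ → ℕ} (hm : ∀ p, 2 ≤ m p) {q : ℕ × ℕ × ℕ}
    (h : Valid s0 m q) : Valid s0 m (nxt s0 m q) := by
  obtain ⟨p, i, l⟩ := q
  unfold Valid WGA.nxt at *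
  simp only at *
  split_ifs with h1 h2
  · exact ⟨h.1, h1⟩
  · exact ⟨h2, by have := hm p; simp only; omega⟩
  · exact ⟨NN_pos _ _, by have := hm (p + 1); simp only; omega⟩

/-- the machine move is an update at two indices -/
theorem DD_nxt {s0 : ℕ} {m : ℕ → ℕ} (hm : ∀ p, 2 ≤ m p) {q : ℕ × ℕ × ℕ}
    (h : Valid s0 m q) :
    DD s0 m (nxt s0 m q) = Function.update (Function.update (DD s0 m q) q.2.1
      (sig s0 m q.1 * al (m q.1) (q.2.2 + 1))) (NN s0 q.1 + q.2.1)
      (sig s0 m q.1 * be (m q.1) (q.2.2 + 1)) := by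
  obtain ⟨p, i, l⟩ := q
  obtain ⟨hi, hl⟩ := h
  simp only at hi hl
  have hm1 : 1 ≤ m p := by have := hm p; omega
  have hN := NN_pos s0 p
  funext n
  by_cases hn1 : n = NN s0 p + i
  · subst hn1
    rw [Function.update_self]
    unfold nxt
    simp only
    split_ifs with h1 h2
    · simp only [DD]
      rw [if_neg (by omega), if_neg (by omega), if_pos trivial]
    · have hlm : l + 1 = m p := by omega
      simp only [DD]
      rw [if_pos (by omega), hlm, be_self hm1, sig]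
    · have hlm : l + 1 = m p := by omega
      have hiN : i + 1 = NN s0 p := by omega
      simp only [DD]
      have hN2 := NN_succ s0 p
      rw [if_neg (by omega), if_neg (by omega), if_neg (by omega), if_pos (by omega), hlm,
        be_self hm1, sig]
  · rw [Function.update_of_ne hn1]
    by_cases hn2 : n = i
    · subst hn2
      rw [Function.update_self]
      unfold nxt
      simp only
      split_ifs with h1 h2
      · simp only [DD]
        rw [if_neg (by omega), if_pos trivial]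
      · have hlm : l + 1 = m p := by omega
        simp only [DD]
        rw [if_pos (by omega), hlm, al_self hm1, sig]
      · have hlm : l + 1 = m p := by omega
        have hiN : n + 1 = NN s0 p := by omega
        simp only [DD]
        have hN2 := NN_succ s0 p
        rw [if_neg (by omega)]
        by_cases h0 : n = 0
        · rw [if_pos h0, al_zero, mul_one, hlm, al_self hm1, sig]
        · rw [if_neg h0, if_neg (by omega), if_pos (by omega), hlm, al_self hm1, sig]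
    · rw [Function.update_of_ne hn2]
      unfold nxt
      simp only
      split_ifs with h1 h2
      · simp only [DD, if_neg hn1, if_neg hn2]
      · simp only [DD, if_neg hn1, if_neg hn2]
        by_cases h3 : n < i ∨ (NN s0 p ≤ n ∧ n < NN s0 p + i)
        · rw [if_pos h3, if_pos (by omega)]
        · rw [if_neg h3, if_neg (by omega)]
          by_cases h4 : n = i + 1
          · rw [if_pos h4, al_zero, mul_one, if_pos (by omega)]
          · rw [if_neg h4]
            by_cases h5 : n = NN s0 p + (i + 1)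
            · rw [if_pos h5, be_zero, mul_zero, if_neg (by omega)]
            · rw [if_neg h5]
      · have hiN : i + 1 = NN s0 p := by omega
        have hN2 := NN_succ s0 p
        simp only [DD, if_neg hn1, if_neg hn2]
        rw [if_neg (by omega)]
        by_cases h3 : n < i ∨ (NN s0 p ≤ n ∧ n < NN s0 p + i)
        · rw [if_pos h3]
          by_cases h4 : n = 0
          · rw [if_pos h4, al_zero, mul_one]
          · rw [if_neg h4, if_neg (by omega), if_pos (by omega)]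
        · rw [if_neg h3, if_neg (by omega)]
          by_cases h4 : n = NN s0 (p + 1) + 0
          · rw [if_pos h4, be_zero, mul_zero, if_neg (by omega)]
          · rw [if_neg h4, if_neg (by omega), if_neg (by omega)]

theorem DD_at_i {s0 : ℕ} {m : ℕ → ℕ} {q : ℕ × ℕ × ℕ} (h : Valid s0 m q) :
    DD s0 m q q.2.1 = sig s0 m q.1 * al (m q.1) q.2.2 := by
  have := h.1
  rw [DD, if_neg (by omega), if_pos rfl]

theorem DD_at_j {s0 : ℕ} {m : ℕ → ℕ} {q : ℕ × ℕ × ℕ} (h : Valid s0 m q) :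
    DD s0 m q (NN s0 q.1 + q.2.1) = sig s0 m q.1 * be (m q.1) q.2.2 := by
  have := h.1
  rw [DD, if_neg (by omega), if_neg (by omega), if_pos rfl]

theorem DD_abs_le {s0 : ℕ} {m : ℕ → ℕ} (hm : ∀ p, 2 ≤ m p) {q : ℕ × ℕ × ℕ}
    (h : Valid s0 m q) (n : ℕ) : |DD s0 m q n| ≤ sig s0 m q.1 := by
  have hm1 : 1 ≤ m q.1 := by have := hm q.1; omega
  have hs := sig_pos s0 hm q.1
  have hs1 := sig_pos s0 hm (q.1 + 1)
  have hl : q.2.2 ≤ m q.1 := h.2.le
  unfold DD
  split_ifs
  · rw [abs_of_pos hs1]; exact sig_succ_le s0 hm _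
  · rw [abs_of_nonneg (mul_nonneg hs.le (al_nonneg hm1 hl))]
    nlinarith [al_le_one hm1 hl]
  · rw [abs_of_nonneg (mul_nonneg hs.le (be_nonneg hm1 hl))]
    nlinarith [be_le_one hm1 hl]
  · rw [abs_of_pos hs]
  · rw [abs_zero]; exact hs.le

theorem DD_sum_sq {s0 : ℕ} {m : ℕ → ℕ} (hm : ∀ p, 2 ≤ m p) {q : ℕ × ℕ × ℕ}
    (h : Valid s0 m q) :
    (NN s0 (q.1 + 1) : ℝ) * sig s0 m (q.1 + 1) ^ 2 ≤
      ∑ n ∈ range (2 * NN s0 q.1), DD s0 m q n ^ 2 := by
  obtain ⟨p, i, l⟩ := q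
  obtain ⟨hi, hl⟩ := h
  simp only at *
  have hm1 : 1 ≤ m p := by have := hm p; omega
  have hs := sig_pos s0 hm p
  have hm' : (2 : ℝ) ≤ m p := by exact_mod_cast hm p
  rw [two_mul, sum_range_add, ← sum_add_distrib, NN_succ, sig_sq_succ s0 hm]
  push_cast
  have hterm : ∀ n ∈ range (NN s0 p), sig s0 m p ^ 2 * (1 - 1 / (m p : ℝ)) ≤
      DD s0 m (p, i, l) n ^ 2 + DD s0 m (p, i, l) (NN s0 p + n) ^ 2 := by
    intro n hn
    rw [mem_range] at hn
    have h1m : 0 ≤ 1 / (m p : ℝ) := by positivity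
    rcases lt_trichotomy n i with hlt | heq | hgt
    · have e1 : DD s0 m (p, i, l) n = sig s0 m (p + 1) := by
        simp only [DD]; rw [if_pos (Or.inl hlt)]
      have e2 : DD s0 m (p, i, l) (NN s0 p + n) = sig s0 m (p + 1) := by
        simp only [DD]; rw [if_pos (Or.inr ⟨by omega, by omega⟩)]
      rw [e1, e2, sig_sq_succ s0 hm]
      apply le_of_eq; ring
    · subst heq
      have e1 := DD_at_i (s0 := s0) (m := m) (q := (p, n, l)) ⟨hi, hl⟩
      have e2 := DD_at_j (s0 := s0) (m := m) (q := (p, n, l)) ⟨hi, hl⟩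
      simp only at e1 e2
      rw [e1, e2, mul_pow, mul_pow, ← mul_add, al_sq_add_be_sq hm1 hl.le]
      have h5 := (frac_bounds hm1 hl.le).2.2.2.2
      apply mul_le_mul_of_nonneg_left _ (by positivity)
      linarith
    · have e1 : DD s0 m (p, i, l) n = sig s0 m p := by
        simp only [DD]
        rw [if_neg (by omega), if_neg (by omega), if_neg (by omega), if_pos hn]
      rw [e1]
      nlinarith [sq_nonneg (DD s0 m (p, i, l) (NN s0 p + n)), sq_nonneg (sig s0 m p)]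
  have hsum := sum_le_sum hterm
  rw [sum_const, card_range, nsmul_eq_mul] at hsum
  calc 2 * (NN s0 p : ℝ) * (sig s0 m p ^ 2 * ((1 - 1 / (m p : ℝ)) / 2))
      = (NN s0 p : ℝ) * (sig s0 m p ^ 2 * (1 - 1 / (m p : ℝ))) := by ring
    _ ≤ _ := hsum

/-- total mass -/
theorem mass_bounds (s0 : ℕ) {m : ℕ → ℕ} (hm : ∀ p, 2 ≤ m p)
    (hsum : ∀ n, ∑ p ∈ range n, 1 / (m p : ℝ) ≤ 1 / 2) (p : ℕ) :
    1 / 2 ≤ (NN s0 p : ℝ) * sig s0 m p ^ 2 ∧ (NN s0 p : ℝ) * sig s0 m p ^ 2 ≤ 1 := by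
  have key : ∀ p, 1 - ∑ k ∈ range p, 1 / (m k : ℝ) ≤ (NN s0 p : ℝ) * sig s0 m p ^ 2 ∧
      (NN s0 p : ℝ) * sig s0 m p ^ 2 ≤ 1 := by
    intro p
    induction p with
    | zero =>
      have : (NN s0 0 : ℝ) * sig s0 m 0 ^ 2 = 1 := by
        rw [NN, sig, div_pow, Real.sq_sqrt (by positivity)]
        push_cast
        rw [add_zero]
        field_simp
      rw [this]; simp
    | succ p ih =>
      have hm' : (2 : ℝ) ≤ m p := by exact_mod_cast hm p
      have h1m : 0 ≤ 1 / (m p : ℝ) := by positivity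
      have h1m' : 1 / (m p : ℝ) ≤ 1 / 2 := by
        apply div_le_div_of_nonneg_left <;> linarith
      have e : (NN s0 (p + 1) : ℝ) * sig s0 m (p + 1) ^ 2 =
          ((NN s0 p : ℝ) * sig s0 m p ^ 2) * (1 - 1 / (m p : ℝ)) := by
        rw [NN_succ, sig_sq_succ s0 hm]; push_cast; ring
      rw [e, sum_range_succ]
      constructor
      · nlinarith [ih.1, ih.2]
      · have h0 : 0 ≤ (NN s0 p : ℝ) * sig s0 m p ^ 2 := by positivity
        nlinarith [ih.2]
  refine ⟨?_, (key p).2⟩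
  linarith [(key p).1, hsum p]

/-! ### Scheduling -/

open Classical in
/-- machine state at time `k` -/
noncomputable def st (s0 : ℕ) (m : ℕ → ℕ) (t : ℕ → ℝ) : ℕ → ℕ × ℕ × ℕ
  | 0 => (0, 0, 0)
  | k + 1 => if t k ≤ 1 / (m (st s0 m t k).1 : ℝ) then nxt s0 m (st s0 m t k)
      else st s0 m t k

theorem st_valid {s0 : ℕ} {m : ℕ → ℕ} (hm : ∀ p, 2 ≤ m p) (t : ℕ → ℝ) (k : ℕ) :
    Valid s0 m (st s0 m t k) := by
  induction k with
  | zero => exact ⟨NN_pos _ _, by have := hm 0; simp only [st]; omega⟩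
  | succ k ih =>
    rw [st]
    split_ifs
    · exact ih.nxt hm
    · exact ih

theorem nxt_fst_ge (s0 : ℕ) (m : ℕ → ℕ) (q : ℕ × ℕ × ℕ) : q.1 ≤ (nxt s0 m q).1 := by
  unfold nxt
  split_ifs <;> simp

theorem st_mono (s0 : ℕ) (m : ℕ → ℕ) (t : ℕ → ℝ) : Monotone (fun k => (st s0 m t k).1) := by
  refine monotone_nat_of_le_succ fun k => ?_
  rw [st]
  split_ifs
  · exact nxt_fst_ge _ _ _
  · exact le_rfl

open Classical in
/-- the stage advances -/
theorem stage_ge {s0 : ℕ} {m : ℕ → ℕ} (hm : ∀ p, 2 ≤ m p) (t : ℕ → ℝ) {Q : ℕ → ℕ}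
    (hQ : Monotone Q)
    (hel : ∀ P, m P * NN s0 P ≤ ((Ico (Q P) (Q (P + 1))).filter
      (fun k => t k ≤ 1 / (m P : ℝ))).card) (P : ℕ) : P ≤ (st s0 m t (Q P)).1 := by
  induction P with
  | zero => exact Nat.zero_le _
  | succ P ih =>
    by_contra hlt
    push Not at hlt
    have hst : ∀ k, Q P ≤ k → k ≤ Q (P + 1) → (st s0 m t k).1 = P := by
      intro k h1 h2
      have h3 := st_mono s0 m t h1
      have h4 := st_mono s0 m t h2
      simp only at h3 h4
      omega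
    have key : ∀ k, Q P ≤ k → k ≤ Q (P + 1) →
        ((Ico (Q P) k).filter (fun k => t k ≤ 1 / (m P : ℝ))).card ≤
          (st s0 m t k).2.1 * m P + (st s0 m t k).2.2 := by
      intro k h1
      induction k, h1 using Nat.le_induction with
      | base => intro _; simp
      | succ k hk ihk =>
        intro h2
        have h3 := ihk (by omega)
        have h4 := hst k hk (by omega)
        have h5 := hst (k + 1) (by omega) h2
        have hv := st_valid hm t k (s0 := s0) (m := m)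
        rw [← Finset.insert_Ico_right_eq_Ico_add_one hk, filter_insert]
        rw [st, h4] at h5 ⊢
        split_ifs at h5 ⊢ with h6
        · rw [card_insert_of_notMem (by simp)]
          unfold nxt at h5 ⊢
          rw [h4] at h5 ⊢
          split_ifs at h5 ⊢ with h7 h8
          · simp only
            omega
          · simp only
            have h9 := hv.2
            rw [h4] at h9
            have h10 : (st s0 m t k).2.2 + 1 = m P := by omega
            rw [add_zero, add_mul, one_mul]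
            omega
          · simp at h5
        · exact h3
    have h1 := key (Q (P + 1)) (hQ (Nat.le_succ P)) le_rfl
    have h2 := hel P
    have hv := st_valid hm t (Q (P + 1)) (s0 := s0) (m := m)
    have h3 := hst (Q (P + 1)) (hQ (Nat.le_succ P)) le_rfl
    obtain ⟨h4, h5⟩ := hv
    rw [h3] at h4 h5
    have h6 : (st s0 m t (Q (P + 1))).2.1 + 1 ≤ NN s0 P := h4
    have h7 : ((st s0 m t (Q (P + 1))).2.1 + 1) * m P ≤ NN s0 P * m P :=
      Nat.mul_le_mul_right _ h6
    have h8 : ((st s0 m t (Q (P + 1))).2.1 + 1) * m P =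
      (st s0 m t (Q (P + 1))).2.1 * m P + m P := by ring
    have h9 : m P * NN s0 P = NN s0 P * m P := Nat.mul_comm _ _
    omega

end Pool.Agent.H35.WGA
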