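import Mathlib
import Pool.Agent.H35.WGAPath

set_option autoImplicit false

namespace Pool.Agent.H35.WGA

open Finset Filter Topology

open Classical in
theorem exists_params {t : ℕ → ℝ} (hV : ClassV t) :
    ∃ (s0 : ℕ) (m Q : ℕ → ℕ), (∀ p, 2 ≤ m p) ∧
      (∀ n, ∑ p ∈ range n, 1 / (m p : ℝ) ≤ 1 / 2) ∧ StrictMono Q ∧
      (∀ P, m P * NN s0 P ≤ ((Ico (Q P) (Q (P + 1))).filter
        (fun k => t k ≤ 1 / (m P : ℝ))).card) ∧
      Summable (fun P => (∑ k ∈ range (Q (P + 1)), t k ^ 2) / (2 : ℝ) ^ (s0 + P)) := by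
  obtain ⟨q, hq0, hq, hx, he⟩ := hV
  set x : ℕ → ℝ := fun s => (2 : ℝ) ^ (s + 1) / ((q (s + 1) : ℝ) - (q s : ℝ)) with hxdef
  set e : ℕ → ℝ := fun s => (∑ k ∈ range (q (s + 1)), t k ^ 2) / (2 : ℝ) ^ (s + 1) with hedef
  have hgap : ∀ s, (0 : ℝ) < (q (s + 1) : ℝ) - (q s : ℝ) := fun s => by
    have : (q s : ℝ) < q (s + 1) := by exact_mod_cast hq (Nat.lt_succ_self s)
    linarith
  have hx0 : ∀ s, 0 < x s := fun s => div_pos (by positivity) (hgap s)
  have he0 : ∀ s, 0 ≤ e s := fun s =>
    div_nonneg (sum_nonneg fun k _ => sq_nonneg _) (by positivity)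
  set y : ℕ → ℝ := fun s => x s + 2 * e s with hydef
  have hy0 : ∀ s, 0 < y s := fun s => by
    have := hx0 s; have := he0 s; simp only [hydef]; linarith
  have hy : Summable y := hx.add (he.mul_left 2)
  obtain ⟨s0, hs0⟩ : ∃ s0 : ℕ, ∑' k, y (k + s0) < 1 / 4 := by
    have := tendsto_sum_nat_add y
    exact (this.eventually (gt_mem_nhds (by norm_num : (0 : ℝ) < 1 / 4))).exists
  have hysum : ∀ n, ∑ k ∈ range n, y (k + s0) ≤ 1 / 4 := fun n =>
    le_trans (((summable_nat_add_iff s0).2 hy).sum_le_tsum _ (fun k _ => (hy0 _).le)) hs0.le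
  have hyle : ∀ k, y (k + s0) ≤ 1 / 4 := fun k =>
    le_trans (((summable_nat_add_iff s0).2 hy).le_tsum k (fun k _ => (hy0 _).le)) hs0.le
  set m : ℕ → ℕ := fun P => ⌊1 / y (P + s0)⌋₊ with hmdef
  have hm1 : ∀ P, (m P : ℝ) ≤ 1 / y (P + s0) := fun P =>
    Nat.floor_le (div_nonneg zero_le_one (hy0 _).le)
  have hm2 : ∀ P, 1 / y (P + s0) < m P + 1 := fun P => Nat.lt_floor_add_one _
  have hinv : ∀ P, 4 ≤ 1 / y (P + s0) := fun P => by
    rw [le_div_iff₀ (hy0 _)]
    linarith [hyle P]
  have hm4 : ∀ P, (3 : ℝ) < m P := fun P => by linarith [hinv P, hm2 P]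
  have hmy : ∀ P, (m P : ℝ) * y (P + s0) ≤ 1 := fun P => by
    have := hm1 P
    rwa [le_div_iff₀ (hy0 _)] at this
  refine ⟨s0, m, fun P => q (P + s0), ?_, ?_, ?_, ?_, ?_⟩
  · intro P
    have := hm4 P
    have h3 : 3 < m P := by exact_mod_cast this
    omega
  · intro n
    have h1 : ∀ p ∈ range n, 1 / (m p : ℝ) ≤ 2 * y (p + s0) := by
      intro p _
      have h2 := hm4 p
      rw [div_le_iff₀ (by linarith)]
      have h3 := hm2 p
      rw [div_lt_iff₀ (hy0 _)] at h3
      have h4 := hyle p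
      have h5 := hy0 (p + s0)
      nlinarith
    have h2 := sum_le_sum h1
    rw [← mul_sum] at h2
    linarith [hysum n]
  · intro a b hab
    exact hq (by omega)
  · intro P
    have hcard : ((Ico (q (P + s0)) (q (P + 1 + s0))).filter
        (fun k => t k ≤ 1 / (m P : ℝ))).card + ((Ico (q (P + s0)) (q (P + 1 + s0))).filter
        (fun k => ¬ t k ≤ 1 / (m P : ℝ))).card = q (P + 1 + s0) - q (P + s0) := by
      rw [card_filter_add_card_filter_not, Nat.card_Ico]
    have hlt : q (P + s0) < q (P + 1 + s0) := hq (by omega)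
    have hm0 : (0 : ℝ) < m P := by linarith [hm4 P]
    have hne : (((Ico (q (P + s0)) (q (P + 1 + s0))).filter
        (fun k => ¬ t k ≤ 1 / (m P : ℝ))).card : ℝ) ≤
        (m P : ℝ) ^ 2 * ∑ k ∈ range (q (P + 1 + s0)), t k ^ 2 := by
      have h1 : (((Ico (q (P + s0)) (q (P + 1 + s0))).filter
        (fun k => ¬ t k ≤ 1 / (m P : ℝ))).card : ℝ) =
          ∑ k ∈ (Ico (q (P + s0)) (q (P + 1 + s0))).filter
            (fun k => ¬ t k ≤ 1 / (m P : ℝ)), (1 : ℝ) := by simp
      rw [h1, mul_sum]
      calc ∑ k ∈ (Ico (q (P + s0)) (q (P + 1 + s0))).filter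
            (fun k => ¬ t k ≤ 1 / (m P : ℝ)), (1 : ℝ)
          ≤ ∑ k ∈ (Ico (q (P + s0)) (q (P + 1 + s0))).filter
            (fun k => ¬ t k ≤ 1 / (m P : ℝ)), (m P : ℝ) ^ 2 * t k ^ 2 := by
            refine sum_le_sum fun k hk => ?_
            rw [mem_filter] at hk
            have h2 := hk.2
            push Not at h2
            rw [div_lt_iff₀ hm0] at h2
            rw [← mul_pow, mul_comm]
            exact one_le_pow₀ h2.le
        _ ≤ ∑ k ∈ range (q (P + 1 + s0)), (m P : ℝ) ^ 2 * t k ^ 2 := by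
            refine sum_le_sum_of_subset_of_nonneg ?_ (fun k _ _ => by positivity)
            intro k hk
            rw [mem_filter, mem_Ico] at hk
            exact mem_range.2 hk.1.2
    have hN : (NN s0 P : ℝ) = 2 ^ (s0 + P) := by rw [NN]; push_cast; ring
    have hN0 : (0 : ℝ) < NN s0 P := by rw [hN]; positivity
    -- values of x and e
    have hpow : (2 : ℝ) ^ (P + s0 + 1) = 2 * NN s0 P := by
      rw [hN, pow_succ, add_comm P s0]; ring
    have hP1 : P + 1 + s0 = P + s0 + 1 := by ring
    have hxv : x (P + s0) * ((q (P + 1 + s0) : ℝ) - q (P + s0)) = 2 * NN s0 P := by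
      simp only [hxdef]
      rw [hP1, div_mul_cancel₀ _ (hgap _).ne', hpow]
    have hev : ∑ k ∈ range (q (P + 1 + s0)), t k ^ 2 = e (P + s0) * (2 * NN s0 P) := by
      simp only [hedef]
      rw [hP1, ← hpow, div_mul_cancel₀ _ (by positivity)]
    have hmx : (m P : ℝ) * x (P + s0) ≤ 1 := by
      have h1 := hmy P
      have h2 := he0 (P + s0)
      simp only [hydef] at h1
      nlinarith
    have hme : 2 * (m P : ℝ) * e (P + s0) ≤ 1 := by
      have h1 := hmy P
      have h2 := hx0 (P + s0)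
      simp only [hydef] at h1
      nlinarith
    have hΔ : 2 * (NN s0 P : ℝ) * m P ≤ (q (P + 1 + s0) : ℝ) - q (P + s0) := by
      rw [← hxv]
      have hg : (0 : ℝ) < (q (P + 1 + s0) : ℝ) - q (P + s0) := by rw [hP1]; exact hgap _
      calc x (P + s0) * ((q (P + 1 + s0) : ℝ) - q (P + s0)) * m P
          = (m P * x (P + s0)) * ((q (P + 1 + s0) : ℝ) - q (P + s0)) := by ring
        _ ≤ 1 * ((q (P + 1 + s0) : ℝ) - q (P + s0)) :=
            mul_le_mul_of_nonneg_right hmx hg.le
        _ = _ := one_mul _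
    have hne2 : (((Ico (q (P + s0)) (q (P + 1 + s0))).filter
        (fun k => ¬ t k ≤ 1 / (m P : ℝ))).card : ℝ) ≤ NN s0 P * m P := by
      refine le_trans hne ?_
      rw [hev]
      calc (m P : ℝ) ^ 2 * (e (P + s0) * (2 * NN s0 P))
          = (NN s0 P * m P) * (2 * m P * e (P + s0)) := by ring
        _ ≤ (NN s0 P * m P) * 1 := mul_le_mul_of_nonneg_left hme (by positivity)
        _ = _ := mul_one _
    have hcard' : (((Ico (q (P + s0)) (q (P + 1 + s0))).filter
        (fun k => t k ≤ 1 / (m P : ℝ))).card : ℝ) + (((Ico (q (P + s0)) (q (P + 1 + s0))).filter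
        (fun k => ¬ t k ≤ 1 / (m P : ℝ))).card : ℝ) = (q (P + 1 + s0) : ℝ) - q (P + s0) := by
      rw [← Nat.cast_sub hlt.le, ← hcard]; push_cast; ring
    have hfin : ((m P * NN s0 P : ℕ) : ℝ) ≤ (((Ico (q (P + s0)) (q (P + 1 + s0))).filter
        (fun k => t k ≤ 1 / (m P : ℝ))).card : ℝ) := by
      push_cast
      nlinarith
    exact_mod_cast hfin
  · have h1 : Summable (fun P => 2 * e (P + s0)) := ((summable_nat_add_iff s0).2 he).mul_left 2
    refine h1.congr fun P => ?_
    simp only [hedef]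
    rw [show P + 1 + s0 = P + s0 + 1 by ring, show s0 + P = P + s0 by ring, pow_succ]
    field_simp

/-- the path of singular values -/
theorem exists_path {t : ℕ → ℝ} (ht0 : ∀ k, 0 ≤ t k) (ht1 : ∀ k, t k ≤ 1) (hV : ClassV t) :
    ∃ (s : ℕ → (ℕ ⊕ ℕ) → ℝ) (c B : ℕ → ℝ), (∀ k, Step (c k) (s k) (s (k + 1))) ∧
      (∀ k i, |s k i| ≤ B k) ∧ (∀ k, 0 ≤ B k) ∧ (∀ k, t k * B k ≤ c k) ∧
      Summable (fun i => s 0 i ^ 2) ∧ (∀ k, ∃ F : Finset (ℕ ⊕ ℕ), 1 / 2 ≤ ∑ i ∈ F, s k i ^ 2) := by
  classical
  obtain ⟨s0, m, Q, hm, hsum, hQ, hel, hsm⟩ := exists_params hV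
  have hstage := stage_ge hm t hQ.monotone hel
  set q : ℕ → ℕ × ℕ × ℕ := st s0 m t with hq
  set S : ℕ → ℝ := fun k => sig s0 m (q k).1 with hS
  have hSpos : ∀ k, 0 < S k := fun k => sig_pos s0 hm _
  have hSanti : Antitone S := fun a b hab => sig_anti s0 hm (st_mono s0 m t hab)
  -- exceptional steps
  let J : ℕ → Prop := fun j => ¬ t j ≤ 1 / (m (q j).1 : ℝ)
  let b : ℕ → ℕ → ℝ := fun k j => if k ≤ j ∧ J j then t j * S j else 0
  have hu : Summable (fun j => (t j * S j) ^ 2) := by
    -- partial sums up to `Q P`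
    have hb0 : ∀ P, sig s0 m P ^ 2 ≤ 1 / 2 ^ (s0 + P) := by
      intro P
      have h1 := (mass_bounds s0 hm hsum P).2
      have h2 : (NN s0 P : ℝ) = 2 ^ (s0 + P) := by rw [NN]; push_cast; ring
      rw [h2] at h1
      rw [le_div_iff₀ (by positivity)]
      linarith
    set w : ℕ → ℝ := fun P => (∑ k ∈ range (Q (P + 1)), t k ^ 2) / (2 : ℝ) ^ (s0 + P) with hw
    have hw0 : ∀ P, 0 ≤ w P := fun P =>
      div_nonneg (sum_nonneg fun k _ => sq_nonneg _) (by positivity)
    have key : ∀ P, ∑ j ∈ range (Q P), (t j * S j) ^ 2 ≤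
        ∑ j ∈ range (Q 0), (t j * S j) ^ 2 + ∑ p ∈ range P, w p := by
      intro P
      induction P with
      | zero => simp
      | succ P ih =>
        have hle : Q P ≤ Q (P + 1) := hQ.monotone (Nat.le_succ P)
        have e1 : ∑ j ∈ range (Q (P + 1)), (t j * S j) ^ 2 =
            ∑ j ∈ range (Q P), (t j * S j) ^ 2 + ∑ j ∈ Ico (Q P) (Q (P + 1)), (t j * S j) ^ 2 := by
          rw [range_eq_Ico, range_eq_Ico, sum_Ico_consecutive _ (Nat.zero_le _) hle]
        have e2 : ∑ j ∈ Ico (Q P) (Q (P + 1)), (t j * S j) ^ 2 ≤ w P := by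
          have e3 : ∀ j ∈ Ico (Q P) (Q (P + 1)), (t j * S j) ^ 2 ≤
              t j ^ 2 * (1 / 2 ^ (s0 + P)) := by
            intro j hj
            rw [mem_Ico] at hj
            have h1 : P ≤ (q j).1 := le_trans (hstage P) (st_mono s0 m t hj.1)
            have h2 : S j ≤ sig s0 m P := sig_anti s0 hm h1
            have h3 : S j ^ 2 ≤ 1 / 2 ^ (s0 + P) :=
              le_trans (pow_le_pow_left₀ (hSpos j).le h2 2) (hb0 P)
            rw [mul_pow]
            exact mul_le_mul_of_nonneg_left h3 (sq_nonneg _)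
          refine le_trans (sum_le_sum e3) ?_
          rw [← sum_mul]
          simp only [hw]
          rw [div_eq_mul_one_div (∑ k ∈ range (Q (P + 1)), t k ^ 2)]
          apply mul_le_mul_of_nonneg_right _ (by positivity)
          refine sum_le_sum_of_subset_of_nonneg ?_ (fun k _ _ => sq_nonneg _)
          intro k hk
          rw [mem_Ico] at hk
          exact mem_range.2 hk.2
        rw [e1, sum_range_succ]
        linarith
    refine summable_of_sum_range_le
      (c := ∑ j ∈ range (Q 0), (t j * S j) ^ 2 + ∑' p, w p) (fun j => sq_nonneg _) fun n => ?_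
    have h1 : n ≤ Q n := hQ.le_apply
    calc ∑ j ∈ range n, (t j * S j) ^ 2 ≤ ∑ j ∈ range (Q n), (t j * S j) ^ 2 :=
          sum_le_sum_of_subset_of_nonneg (range_mono h1) (fun j _ _ => sq_nonneg _)
      _ ≤ _ := key n
      _ ≤ _ := by
          have := hsm.sum_le_tsum (range n) (fun p _ => hw0 p)
          linarith
  refine ⟨fun k => Sum.elim (DD s0 m (q k)) (b k),
    fun k => if J k then t k * S k else S k / m (q k).1, S, ?_, ?_, fun k => (hSpos k).le, ?_, ?_, ?_⟩
  · intro k
    have hv : Valid s0 m (q k) := st_valid hm t k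
    by_cases hJ : J k
    · -- exceptional step
      have hq1 : q (k + 1) = q k := by
        simp only [hq, st]; rw [if_neg hJ]
      have e0 : (if J k then t k * S k else S k / m (q k).1) = t k * S k := if_pos hJ
      beta_reduce
      rw [e0]
      refine Step.junk (Sum.inr k) ?_ ?_
      · simp only [Sum.elim_inr, b]
        rw [if_pos ⟨le_rfl, hJ⟩]
      · rw [Sum.update_elim_inr, hq1]
        congr 1
        funext j
        simp only [b]
        by_cases hj : j = k
        · subst hj
          rw [Function.update_self, if_neg (by omega)]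
        · rw [Function.update_of_ne hj]
          by_cases h2 : k ≤ j ∧ J j
          · rw [if_pos h2, if_pos ⟨by omega, h2.2⟩]
          · rw [if_neg h2, if_neg (fun h3 => h2 ⟨by omega, h3.2⟩)]
    · -- work step
      have hJ' : t k ≤ 1 / (m (q k).1 : ℝ) := not_not.1 hJ
      have hq1 : q (k + 1) = nxt s0 m (q k) := by
        simp only [hq, st]; rw [if_pos hJ']
      have hb : b (k + 1) = b k := by
        funext j
        simp only [b]
        by_cases h2 : k ≤ j ∧ J j
        · have : k ≠ j := fun h => hJ (h ▸ h2.2)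
          rw [if_pos h2, if_pos ⟨by omega, h2.2⟩]
        · rw [if_neg h2, if_neg (fun h3 => h2 ⟨by omega, h3.2⟩)]
      have e0 : (if J k then t k * S k else S k / m (q k).1) = S k / m (q k).1 := if_neg hJ
      beta_reduce
      rw [e0]
      set p := (q k).1 with hp
      set i := (q k).2.1 with hi
      set l := (q k).2.2 with hl
      have hm1 : 1 ≤ m p := by have := hm p; omega
      have hm' : (2 : ℝ) ≤ m p := by exact_mod_cast hm p
      have hll : l < m p := hv.2
      have hll' : (l : ℝ) + 1 ≤ m p := by exact_mod_cast hll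
      have hil : i < NN s0 p := hv.1
      have hSk : S k = sig s0 m p := rfl
      have hσ := sig_pos s0 hm p
      refine Step.work (Sum.inl i) (Sum.inl (NN s0 p + i))
        (fun h => by have := Sum.inl_injective h; omega)
        (sig s0 m p * al (m p) l) (sig s0 m p * be (m p) l)
        (sig s0 m p * al (m p) (l + 1)) (sig s0 m p * be (m p) (l + 1)) ?_ ?_ ?_ ?_ ?_ ?_ ?_ ?_ ?_
      · simp only [Sum.elim_inl]; exact DD_at_i hv
      · simp only [Sum.elim_inl]; exact DD_at_j hv
      · exact mul_nonneg hσ.le (be_nonneg hm1 hll.le)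
      · rw [hSk]; positivity
      · rw [hSk, div_eq_mul_one_div]
        apply mul_le_mul_of_nonneg_left _ hσ.le
        have h1 := al_sub_be (m p) l
        have h2 := be_nonneg hm1 hll.le
        have h3 : 1 / (m p : ℝ) ≤ 1 - l / (m p : ℝ) := by
          rw [div_le_iff₀ (by linarith)]
          field_simp
          linarith
        linarith
      · have h1 := al_sub_be (m p) l
        have h2 := al_sub_be (m p) (l + 1)
        rw [← mul_sub, h2, ← mul_sub, h1, hSk]
        push_cast
        field_simp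
        ring
      · rw [← mul_add, al_add_be]
        exact mul_nonneg hσ.le (zf_nonneg _ _)
      · rw [← mul_add, al_add_be, ← mul_add, al_add_be, ← mul_sub, al_sub_be, mul_pow, mul_pow,
          zf_sq hm1 hll, zf_sq hm1 hll.le, hSk]
        push_cast
        field_simp
        ring
      · rw [Sum.update_elim_inl, Sum.update_elim_inl, hq1, hb]
        congr 1
        exact DD_nxt hm hv
  · intro k i
    rcases i with n | j
    · simp only [Sum.elim_inl]
      exact DD_abs_le hm (st_valid hm t k) n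
    · simp only [Sum.elim_inr, b]
      split_ifs with h
      · rw [abs_of_nonneg (mul_nonneg (ht0 j) (hSpos j).le)]
        have h1 := hSanti h.1
        have h2 := ht1 j
        have h3 := ht0 j
        have h4 := hSpos j
        nlinarith
      · rw [abs_zero]; exact (hSpos k).le
  · intro k
    by_cases hJ : J k
    · have e0 : (if J k then t k * S k else S k / m (q k).1) = t k * S k := if_pos hJ
      beta_reduce
      rw [e0]
    · have e0 : (if J k then t k * S k else S k / m (q k).1) = S k / m (q k).1 := if_neg hJ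
      beta_reduce
      rw [e0]
      have hJ' : t k ≤ 1 / (m (q k).1 : ℝ) := not_not.1 hJ
      rw [div_eq_mul_one_div, mul_comm]
      exact mul_le_mul_of_nonneg_left hJ' (hSpos k).le
  · -- summability at time 0
    have hv : Valid s0 m (q 0) := st_valid hm t 0
    have hfin : ∀ n, 2 * NN s0 (q 0).1 ≤ n → DD s0 m (q 0) n = 0 := by
      intro n hn
      have := hv.1
      rw [DD, if_neg (by omega), if_neg (by omega), if_neg (by omega), if_neg (by omega)]
    refine summable_of_sum_le (c := ∑ n ∈ range (2 * NN s0 (q 0).1), DD s0 m (q 0) n ^ 2 +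
      ∑' j, (t j * S j) ^ 2) (fun i => sq_nonneg _) fun u => ?_
    rw [← Finset.toLeft_disjSum_toRight (u := u), sum_disjSum]
    simp only [Sum.elim_inl, Sum.elim_inr]
    apply add_le_add
    · calc ∑ n ∈ u.toLeft, DD s0 m (q 0) n ^ 2
          ≤ ∑ n ∈ u.toLeft ∪ range (2 * NN s0 (q 0).1), DD s0 m (q 0) n ^ 2 :=
            sum_le_sum_of_subset_of_nonneg subset_union_left (fun _ _ _ => sq_nonneg _)
        _ = ∑ n ∈ range (2 * NN s0 (q 0).1), DD s0 m (q 0) n ^ 2 := by
            refine (sum_subset subset_union_right fun n _ hn => ?_).symm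
            rw [mem_range] at hn
            rw [hfin n (by omega)]; ring
    · calc ∑ j ∈ u.toRight, b 0 j ^ 2 ≤ ∑ j ∈ u.toRight, (t j * S j) ^ 2 := by
            refine sum_le_sum fun j _ => ?_
            simp only [b]
            split_ifs
            · exact le_rfl
            · simp only [ne_eq, OfNat.ofNat_ne_zero, not_false_eq_true, zero_pow]
              positivity
        _ ≤ _ := hu.sum_le_tsum _ (fun j _ => sq_nonneg _)
  · intro k
    refine ⟨(range (2 * NN s0 (q k).1)).map ⟨Sum.inl, Sum.inl_injective⟩, ?_⟩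
    rw [sum_map]
    simp only [Function.Embedding.coeFn_mk, Sum.elim_inl]
    exact le_trans (mass_bounds s0 hm hsum _).1 (DD_sum_sq hm (st_valid hm t k))

end Pool.Agent.H35.WGA
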