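import Mathlib
import Pool.Agent.H35.ClassV

set_option autoImplicit false

namespace Pool.Agent.H35.WGA

open Finset Filter Topology
open scoped InnerProductSpace

section general

variable {H : Type} [NormedAddCommGroup H] [InnerProductSpace ℝ H]

theorem bdd_inner {D : Set H} (hD : ∀ g ∈ D, ‖g‖ = 1) (x : H) :
    BddAbove (Set.range (fun g : D => |⟪x, (g : H)⟫_ℝ|)) := by
  refine ⟨‖x‖, ?_⟩
  rintro _ ⟨g, rfl⟩
  calc |⟪x, (g : H)⟫_ℝ| ≤ ‖x‖ * ‖(g : H)‖ := abs_real_inner_le_norm _ _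
    _ = ‖x‖ := by rw [hD g g.2, mul_one]

theorem le_sup_inner {D : Set H} (hD : ∀ g ∈ D, ‖g‖ = 1) (x : H) {g : H} (hg : g ∈ D) :
    |⟪x, g⟫_ℝ| ≤ ⨆ g : D, |⟪x, (g : H)⟫_ℝ| :=
  le_ciSup (bdd_inner hD x) (⟨g, hg⟩ : D)

variable {D : Set H} {t : ℕ → ℝ} {f : H} {r φ : ℕ → H}

theorem IsWGA.norm_sq_step (hD : ∀ g ∈ D, ‖g‖ = 1) (h : IsWGA D t f r φ) (m : ℕ) :
    ‖r (m + 1)‖ ^ 2 = ‖r m‖ ^ 2 - |⟪r m, φ m⟫_ℝ| ^ 2 := by
  rw [h.step m, norm_sub_sq_real, norm_smul, inner_smul_right, hD _ (h.mem m), mul_one,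
    Real.norm_eq_abs]
  rw [sq_abs]
  ring

theorem IsWGA.inner_le (hD : ∀ g ∈ D, ‖g‖ = 1) (h : IsWGA D t f r φ) {n m : ℕ} (hnm : n ≤ m) :
    |⟪r n - r m, r m⟫_ℝ| ≤
      (∑ j ∈ range m, |⟪r j, φ j⟫_ℝ|) * ⨆ g : D, |⟪r m, (g : H)⟫_ℝ| := by
  have e1 : r n - r m = ∑ j ∈ Ico n m, ⟪r j, φ j⟫_ℝ • φ j := by
    induction m, hnm using Nat.le_induction with
    | base => simp
    | succ m hnm ih =>
      rw [sum_Ico_succ_top hnm, ← ih, h.step m]
      abel
  rw [e1, sum_inner]
  refine le_trans (abs_sum_le_sum_abs _ _) ?_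
  rw [sum_mul]
  have hR0 : 0 ≤ ⨆ g : D, |⟪r m, (g : H)⟫_ℝ| :=
    le_trans (abs_nonneg _) (le_sup_inner hD (r m) (h.mem 0))
  calc ∑ j ∈ Ico n m, |⟪⟪r j, φ j⟫_ℝ • φ j, r m⟫_ℝ|
      ≤ ∑ j ∈ Ico n m, |⟪r j, φ j⟫_ℝ| * ⨆ g : D, |⟪r m, (g : H)⟫_ℝ| := by
        refine sum_le_sum fun j _ => ?_
        rw [inner_smul_left, abs_mul]
        simp only [conj_trivial]
        refine mul_le_mul_of_nonneg_left ?_ (abs_nonneg _)
        rw [real_inner_comm]
        exact le_sup_inner hD (r m) (h.mem j)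
    _ ≤ ∑ j ∈ range m, |⟪r j, φ j⟫_ℝ| * ⨆ g : D, |⟪r m, (g : H)⟫_ℝ| := by
        refine sum_le_sum_of_subset_of_nonneg ?_ (fun j _ _ => mul_nonneg (abs_nonneg _) hR0)
        intro j hj
        rw [mem_Ico] at hj
        exact mem_range.2 hj.2

/-- Sufficiency (Temlyakov): if the sequence is not in the class `V`, the algorithm converges for
every total set of unit vectors. -/
theorem converges_of_not_classV [CompleteSpace H] (hD : ∀ g ∈ D, ‖g‖ = 1)
    (htot : ∀ x : H, (∀ g ∈ D, ⟪x, g⟫_ℝ = 0) → x = 0)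
    (ht : ∀ k, 0 ≤ t k) (hV : ¬ ClassV t) : Converges D t := by
  intro f r φ h
  set a : ℕ → ℝ := fun m => |⟪r m, φ m⟫_ℝ| with ha
  set R : ℕ → ℝ := fun m => ⨆ g : D, |⟪r m, (g : H)⟫_ℝ| with hR
  have ha0 : ∀ m, 0 ≤ a m := fun m => abs_nonneg _
  have hR0 : ∀ m, 0 ≤ R m := fun m =>
    le_trans (abs_nonneg _) (le_sup_inner hD (r m) (h.mem 0))
  have hstep : ∀ m, ‖r (m + 1)‖ ^ 2 = ‖r m‖ ^ 2 - a m ^ 2 := fun m => h.norm_sq_step hD m
  have hanti : Antitone (fun m => ‖r m‖ ^ 2) := by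
    refine antitone_nat_of_succ_le fun m => ?_
    rw [hstep]
    linarith [sq_nonneg (a m)]
  have hsum : Summable (fun k => a k ^ 2) := by
    refine summable_of_sum_range_le (c := ‖r 0‖ ^ 2) (fun k => sq_nonneg _) fun n => ?_
    have : ∑ k ∈ range n, a k ^ 2 = ‖r 0‖ ^ 2 - ‖r n‖ ^ 2 := by
      have h1 : ∀ k ∈ range n, a k ^ 2 = ‖r k‖ ^ 2 - ‖r (k + 1)‖ ^ 2 := fun k _ => by
        rw [hstep]; ring
      rw [sum_congr rfl h1, sum_range_sub' (fun k => ‖r k‖ ^ 2)]
    rw [this]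
    linarith [sq_nonneg ‖r n‖]
  -- the dichotomy
  by_cases hdich : ∃ c : ℝ, 0 < c ∧ ∃ m0 : ℕ, ∀ m, m0 ≤ m → c ≤ R m * ∑ j ∈ range m, a j
  · exfalso
    obtain ⟨c, hc, m0, hm0⟩ := hdich
    apply hV
    refine classV_of_l2 ht ha0 hsum hc (m0 := m0) fun m hm => ?_
    have h1 := hm0 m hm
    have h2 := h.greedy m
    have h3 : 0 ≤ ∑ j ∈ range m, a j := sum_nonneg fun j _ => ha0 j
    calc c * t m ≤ (R m * ∑ j ∈ range m, a j) * t m := mul_le_mul_of_nonneg_right h1 (ht m)
      _ = (t m * R m) * ∑ j ∈ range m, a j := by ring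
      _ ≤ a m * ∑ j ∈ range m, a j := mul_le_mul_of_nonneg_right h2 h3
      _ ≤ a m * ∑ j ∈ range (m + 1), a j := by
          refine mul_le_mul_of_nonneg_left ?_ (ha0 m)
          rw [sum_range_succ]
          linarith [ha0 m]
  · push Not at hdich
    have hfreq : ∀ n : ℕ, ∃ᶠ m in atTop, R m * ∑ j ∈ range m, a j < 1 / ((n : ℝ) + 1) := by
      intro n
      rw [frequently_atTop]
      intro m
      obtain ⟨k, hk, hk'⟩ := hdich (1 / ((n : ℝ) + 1)) (by positivity) m
      exact ⟨k, hk, hk'⟩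
    obtain ⟨u, hu, hu'⟩ := extraction_forall_of_frequently hfreq
    -- the norms converge
    obtain ⟨L, hL⟩ : ∃ L, Tendsto (fun m => ‖r m‖ ^ 2) atTop (𝓝 L) :=
      ⟨_, tendsto_atTop_ciInf hanti ⟨0, by rintro _ ⟨m, rfl⟩; positivity⟩⟩
    -- the subsequence is Cauchy
    have hcau : CauchySeq (fun k => r (u k)) := by
      rw [Metric.cauchySeq_iff]
      intro ε hε
      have hLu : Tendsto (fun k => ‖r (u k)‖ ^ 2) atTop (𝓝 L) := hL.comp hu.tendsto_atTop
      have hcs := (Metric.cauchySeq_iff.1 hLu.cauchySeq) (ε ^ 2 / 2) (by positivity)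
      obtain ⟨N1, hN1⟩ := hcs
      obtain ⟨N2, hN2⟩ := exists_nat_gt (4 / ε ^ 2)
      have key : ∀ m n, max N1 N2 ≤ m → m ≤ n → ‖r (u m) - r (u n)‖ < ε := by
        intro m n hm hmn
        have h1 := h.inner_le hD (hu.monotone hmn)
        have h2 := hu' n
        have h3 : ‖r (u m) - r (u n)‖ ^ 2 =
            ‖r (u m)‖ ^ 2 - ‖r (u n)‖ ^ 2 - 2 * ⟪r (u m) - r (u n), r (u n)⟫_ℝ := by
          rw [norm_sub_sq_real, inner_sub_left, real_inner_self_eq_norm_sq]
          ring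
        have h4 := hN1 m (le_trans (le_max_left _ _) hm) n
          (le_trans (le_max_left _ _) (le_trans hm hmn))
        rw [Real.dist_eq] at h4
        have h5 := abs_lt.1 h4
        have h6 := (abs_le.1 h1).1
        have h7 : 1 / ((n : ℝ) + 1) < ε ^ 2 / 4 := by
          have h8 : (N2 : ℝ) ≤ n := by exact_mod_cast le_trans (le_max_right _ _) (le_trans hm hmn)
          rw [div_lt_iff₀ (by positivity)]
          have h9 : 4 / ε ^ 2 < (n : ℝ) + 1 := by linarith
          rw [div_lt_iff₀ (by positivity)] at h9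
          linarith
        have h8 : ‖r (u m) - r (u n)‖ ^ 2 < ε ^ 2 := by
          have e9 : (∑ j ∈ range (u n), |⟪r j, φ j⟫_ℝ|) * (⨆ g : D, |⟪r (u n), (g : H)⟫_ℝ|) =
            R (u n) * ∑ j ∈ range (u n), a j := by rw [mul_comm]
          rw [e9] at h6
          linarith
        exact lt_of_pow_lt_pow_left₀ 2 hε.le h8
      refine ⟨max N1 N2, fun m hm n hn => ?_⟩
      rcases le_total m n with hmn | hmn
      · rw [dist_eq_norm]; exact key m n hm hmn
      · rw [dist_comm, dist_eq_norm]; exact key n m hn hmn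
    obtain ⟨F, hF⟩ := cauchySeq_tendsto_of_complete hcau
    -- if the limit is nonzero we get a contradiction
    have hF0 : F = 0 := by
      by_contra hne
      obtain ⟨g, hgD, hg⟩ : ∃ g ∈ D, ⟪F, g⟫_ℝ ≠ 0 := by
        by_contra hcon
        push Not at hcon
        exact hne (htot F hcon)
      set η := |⟪F, g⟫_ℝ| with hη
      have hη0 : 0 < η := abs_pos.2 hg
      have hlim : Tendsto (fun k => |⟪r (u k), g⟫_ℝ|) atTop (𝓝 η) := by
        have : Tendsto (fun k => ⟪r (u k), g⟫_ℝ) atTop (𝓝 ⟪F, g⟫_ℝ) :=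
          hF.inner tendsto_const_nhds
        exact this.abs
      have hev : ∀ᶠ k in atTop, η / 2 < R (u k) := by
        filter_upwards [hlim.eventually (lt_mem_nhds (half_lt_self hη0))] with k hk
        exact lt_of_lt_of_le hk (le_sup_inner hD (r (u k)) hgD)
      -- all `a j` vanish
      have hazero : ∀ j, a j = 0 := by
        intro j
        by_contra hj
        have hj0 : 0 < a j := lt_of_le_of_ne (ha0 j) (Ne.symm hj)
        obtain ⟨k1, hk1⟩ := eventually_atTop.1 hev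
        obtain ⟨N, hN⟩ := exists_nat_gt (1 / (η / 2 * a j))
        set k := max k1 (max N (j + 1)) with hk
        have h1 := hk1 k (le_max_left _ _)
        have h2 := hu' k
        have h3 : j < u k := by
          have : k ≤ u k := hu.le_apply
          have : j + 1 ≤ k := le_trans (le_max_right _ _) (le_max_right _ _)
          omega
        have h4 : a j ≤ ∑ i ∈ range (u k), a i :=
          single_le_sum (f := a) (fun i _ => ha0 i) (mem_range.2 h3)
        have h5 : η / 2 * a j ≤ R (u k) * ∑ i ∈ range (u k), a i :=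
          mul_le_mul h1.le h4 hj0.le (hR0 _)
        have h6 : (N : ℝ) ≤ k := by
          exact_mod_cast le_trans (le_max_left _ _) (le_max_right _ _)
        have h7 : 1 / (η / 2 * a j) < (k : ℝ) + 1 := by linarith
        have h8 : 1 / ((k : ℝ) + 1) < η / 2 * a j := by
          rw [div_lt_iff₀ (by positivity)]
          rw [div_lt_iff₀ (by positivity)] at h7
          linarith
        linarith
      have hrc : ∀ m, r m = f := by
        intro m
        induction m with
        | zero => exact h.init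
        | succ m ih =>
          have h1 := hazero m
          have h2 : ⟪r m, φ m⟫_ℝ = 0 := abs_eq_zero.1 h1
          rw [h.step m, h2, zero_smul, sub_zero, ih]
      have hFf : F = f := by
        have : Tendsto (fun k => r (u k)) atTop (𝓝 f) := by
          simp only [hrc]; exact tendsto_const_nhds
        exact tendsto_nhds_unique hF this
      -- then all t vanish
      have hRpos : ∀ m, 0 < R m := by
        intro m
        have h1 : |⟪r m, g⟫_ℝ| ≤ R m := le_sup_inner hD (r m) hgD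
        rw [hrc m, ← hFf] at h1
        exact lt_of_lt_of_le hη0 h1
      have ht0 : ∀ m, t m = 0 := by
        intro m
        have h1 := h.greedy m
        have h2 : |⟪r m, φ m⟫_ℝ| = 0 := hazero m
        rw [h2] at h1
        have h3 := hRpos m
        have h4 := ht m
        by_contra hne'
        have h5 : 0 < t m := lt_of_le_of_ne h4 (Ne.symm hne')
        have h6 : 0 < t m * R m := mul_pos h5 h3
        linarith
      apply hV
      apply classV_of_summable_sq
      simp [ht0]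
    -- conclude
    have hL0 : L = 0 := by
      have h1 : Tendsto (fun k => ‖r (u k)‖ ^ 2) atTop (𝓝 (‖F‖ ^ 2)) := (hF.norm).pow 2
      have h2 : Tendsto (fun k => ‖r (u k)‖ ^ 2) atTop (𝓝 L) := hL.comp hu.tendsto_atTop
      have h3 := tendsto_nhds_unique h1 h2
      rw [← h3, hF0]
      simp
    rw [hL0] at hL
    have h4 : Tendsto (fun m => √(‖r m‖ ^ 2)) atTop (𝓝 (√0)) :=
      (Real.continuous_sqrt.tendsto 0).comp hL
    simp only [Real.sqrt_zero] at h4
    refine h4.congr fun m => ?_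
    exact Real.sqrt_sq (norm_nonneg _)

end general

end Pool.Agent.H35.WGA
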